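import Pool.Agent.H34.BK.Thr
import Pool.Agent.H73.KT.Fin
import Pool.Agent.H73.KT.Gap
import Pool.Agent.H73.KT.Hol

/-!
# The block systems with holes
-/

set_option autoImplicit false

open MeasureTheory Filter Topology Set

namespace Pool.Agent.H34.BK

open Pool.Agent.H49.BP Pool.Agent.H34.BW Pool.Agent.H73.KT

/-- the counting function of the block system differs from the mass by `o(h / log)` -/
theorem base_count {h : ℝ → ℝ} (hlim : Tendsto (fun x => h x / Real.log x) atTop atTop) : ∃ V : ℕ → ℕ,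
    ∀ (a : ℕ → ℕ) (S : ℕ → Finset ℝ) (q : ℕ → ℝ),
    (Slow a ∧ (∀ b, a b ≠ 0 → V (a b) ≤ b) ∧ Blocks a S ∧ Enum a S q ∧
      (∀ b, ∀ x ∈ S b, ∀ y ∈ S (b + 1), ∀ k : ℕ, y ≠ x + (k : ℝ)) ∧
      ∀ b, ∀ x ∈ S b, ∀ y ∈ S b, ∀ d : ℕ, a b < d → (d : ℝ) + a b < ln a b / ((a b : ℝ) + 2) → y ≠ x + (d : ℝ)) →
    ∀ ε : ℝ, 0 < ε → ∀ᶠ x in atTop, |MM x - pc q x| * Real.log x ≤ ε * h x := by
  have h1 : ∀ k : ℕ, ∃ V : ℕ, ∀ y : ℝ, (V : ℝ) ≤ y → ((k : ℝ) + 1) ^ 2 ≤ h y / Real.log y ∧ 1 < y := by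
    intro k
    obtain ⟨B, hB⟩ := eventually_atTop.1 ((hlim.eventually (eventually_ge_atTop (((k : ℝ) + 1) ^ 2))).and
      (eventually_gt_atTop 1))
    obtain ⟨V, hV⟩ := exists_nat_ge B
    exact ⟨V, fun y hy => hB y (by linarith)⟩
  choose V hV using h1
  refine ⟨V, fun a S q ⟨ha, haV, hS, hq, _, _⟩ ε hε => ?_⟩
  obtain ⟨K, hK⟩ := exists_nat_gt (1 / ε)
  obtain ⟨J0, hJ0⟩ := eventually_atTop.1 (ha.2.1.eventually (eventually_ge_atTop (K + 1)))
  filter_upwards [eventually_ge_atTop (tb a J0), eventually_ge_atTop 1] with x hx hx1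
  obtain ⟨J, hJ1, hJ2⟩ := exists_block (a := a) hx1
  have hJJ : J0 ≤ J := by
    have h3 : tb a J0 < tb a (J + 1) := lt_of_le_of_lt hx hJ2
    have := tb_mono.lt_iff_lt.1 h3
    omega
  have haK : K + 1 ≤ a J := hJ0 J hJJ
  have haK' : (K : ℝ) + 1 ≤ a J := by exact_mod_cast haK
  have hVx : (V (a J) : ℝ) ≤ x := by
    have h3 : (V (a J) : ℝ) ≤ J := by exact_mod_cast haV J (by omega)
    have h4 := tb_ge (a := a) J
    linarith
  obtain ⟨h3, h4⟩ := hV (a J) x hVx
  have hl := log_pos' h4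
  rw [le_div_iff₀ hl] at h3
  obtain ⟨h5, h6⟩ := pc_block hS hq hJ1 hJ2
  have h5' : (Mb a J : ℝ) ≤ pc q x := by exact_mod_cast h5
  have h6' : (pc q x : ℝ) ≤ Mb a J + (a J + 1) := by exact_mod_cast h6
  have h7 := MM_le (tb_one_le (a := a) J) hJ1
  have h8 := MM_le hx1 hJ2.le
  have h9 := MM_block (a := a) J
  simp only [MM_tb] at h7 h8 h9
  have h10 : |MM x - pc q x| ≤ (a J : ℝ) + 1 := by
    rw [abs_le]
    constructor <;> linarith
  have h11 : 1 ≤ ε * ((a J : ℝ) + 1) := by
    rw [div_lt_iff₀ hε] at hK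
    nlinarith
  calc |MM x - pc q x| * Real.log x ≤ ((a J : ℝ) + 1) * Real.log x := mul_le_mul_of_nonneg_right h10 hl.le
    _ = 1 * (((a J : ℝ) + 1) * Real.log x) := by ring
    _ ≤ (ε * ((a J : ℝ) + 1)) * (((a J : ℝ) + 1) * Real.log x) :=
        mul_le_mul_of_nonneg_right h11 (by positivity)
    _ = ε * (((a J : ℝ) + 1) ^ 2 * Real.log x) := by ring
    _ ≤ ε * h x := mul_le_mul_of_nonneg_left h3 hε.le

section
variable {q : ℕ → ℝ} {h : ℝ → ℝ} (hq : StrictMono q) (hg : ∀ n : ℕ, (n : ℝ) + 1 ≤ q n)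
include hq hg

/-- few points are moved -/
theorem moved_qh {A C : ℝ} {n0 : ℕ} (hA : 0 ≤ A) (hC : 0 ≤ C) (hn0 : 1 ≤ n0)
    (hp : ∀ x : ℝ, 2 ≤ x → |(pc q x : ℝ) - ∫ u in (2 : ℝ)..x, (Real.log u)⁻¹| ≤ C * √x)
    (hX' : ∀ n, n0 ≤ n → h (q n) ≤ A * √(q n) * Real.log (q n) ∧ 1 ≤ h (q n) ∧ h (q n) ≤ q n) :
    Moved q (qh q h n0) := by
  have hst : ∀ k, n0 ≤ st q h n0 k := st_ge hg h n0
  have hmv : ∀ n, q n ≤ qh q h n0 n := by
    intro n
    by_cases hn : ∃ k, InH q h n0 k n
    · obtain ⟨k, hk⟩ := hn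
      rw [qh_in hg h hk]
      exact (en_min hk.1 hk.2).trans (fv_gt hg h hk.1).le
    · rw [qh_out h hn]
  refine ⟨?_, hmv, 2 + A + 3 * C, by positivity, ?_⟩
  · -- strictly increasing
    refine strictMono_nat_of_lt_succ fun j => ?_
    rcases qh_cases hg h n0 j with ⟨k, hk⟩ | ⟨k, hk⟩ | ⟨h1, h2⟩
    · rw [qh_in hg h hk, qh_next hg h hk.1.le hk.2]
      have h3 := fv_step hg h (st q h n0 k) j
      have h4 := (step_bd hg h (st q h n0 k)).1
      linarith
    · rw [← hk, qh_st hg h, qh_next hg h le_rfl (en_gt hg h _)]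
      have h3 := fv_gt hg h (Nat.lt_succ_self (st q h n0 k))
      have h4 := (hX' _ (hst k)).2.1
      linarith
    · rw [h1, h2]
      exact hq (Nat.lt_succ_self j)
  · -- few
    intro x hx
    have hsx : 1 ≤ √x := Real.one_le_sqrt.2 hx
    set S : Set ℕ := {n : ℕ | q n ≤ x ∧ qh q h n0 n ≠ q n} with hS
    have hSin : ∀ n ∈ S, ∃ k, InH q h n0 k n := by
      intro n hn
      by_contra h1
      exact hn.2 (qh_out h h1)
    rcases le_or_gt (q (st q h n0 0)) x with h0 | h0
    · classical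
      set J := Nat.findGreatest (fun k => q (st q h n0 k) ≤ x) ⌈x⌉₊ with hJ
      have hJ1 : q (st q h n0 J) ≤ x := Nat.findGreatest_spec (P := fun k => q (st q h n0 k) ≤ x) (Nat.zero_le _) h0
      have hJ2 : ∀ k, q (st q h n0 k) ≤ x → k ≤ J := by
        intro k hk
        refine Nat.le_findGreatest ?_ hk
        have h1 := (st_mono hg h n0).le_apply (x := k)
        have h2 := hg (st q h n0 k)
        have h3 : (k : ℝ) ≤ st q h n0 k := by exact_mod_cast h1
        have h4 : x ≤ ⌈x⌉₊ := Nat.le_ceil x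
        have h5 : (k : ℝ) ≤ ⌈x⌉₊ := by linarith
        exact_mod_cast h5
      set n := st q h n0 J with hn
      set r := en q h n with hr
      have hnr : n < r := en_gt hg h n
      have hsub : S ⊆ ((Finset.range (⌊√x⌋₊ + 1) ∪ Finset.Ioo n r : Finset ℕ) : Set ℕ) := by
        intro j hj
        obtain ⟨k, hk⟩ := hSin j hj
        have h1 : q (st q h n0 k) ≤ x := (hq hk.1).le.trans hj.1
        rw [Finset.mem_coe, Finset.mem_union, Finset.mem_range, Finset.mem_Ioo]
        rcases (hJ2 k h1).lt_or_eq with h2 | h2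
        · left
          have h3 := st_sq (q := q) h n0 k
          have h4 : st q h n0 (k + 1) ≤ n := (st_mono hg h n0).monotone h2
          have h5 : (((en q h (st q h n0 k)) ^ 2 : ℕ) : ℝ) ≤ (n : ℝ) := by exact_mod_cast h3.trans h4
          push_cast at h5
          have h6 := hg n
          have h7 : ((en q h (st q h n0 k) : ℕ) : ℝ) ≤ √x := Real.le_sqrt_of_sq_le (by linarith)
          have h8 : en q h (st q h n0 k) ≤ ⌊√x⌋₊ := Nat.le_floor h7
          have := hk.2
          omega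
        · right
          subst h2
          exact hk
      have h1 := Set.ncard_le_ncard hsub (Finset.finite_toSet _)
      rw [Set.ncard_coe_finset] at h1
      have h2 := h1.trans (Finset.card_union_le _ _)
      rw [Finset.card_range, Nat.card_Ioo] at h2
      have h3 : (S.ncard : ℝ) ≤ (⌊√x⌋₊ : ℝ) + 1 + ((r : ℝ) - n - 1) := by
        have h4 : S.ncard + n + 1 ≤ ⌊√x⌋₊ + 1 + r := by omega
        have h5 : ((S.ncard + n + 1 : ℕ) : ℝ) ≤ ((⌊√x⌋₊ + 1 + r : ℕ) : ℝ) := by exact_mod_cast h4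
        push_cast at h5
        linarith
      have h4 : (⌊√x⌋₊ : ℝ) ≤ √x := Nat.floor_le (Real.sqrt_nonneg x)
      obtain ⟨a1, a2, a3⟩ := hX' n (hst J)
      have hn1' : 1 ≤ n := by
        have := hst J
        omega
      have hα : 2 ≤ q n := by
        have h5 := hg n
        have h6 : (1 : ℝ) ≤ n := by exact_mod_cast hn1'
        linarith
      set α := q n with hαdef
      set β := α + h α with hβ
      have hαβ : α ≤ β := by linarith
      have hpα : pc q α ≤ n + 1 := by
        by_contra h5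
        push Not at h5
        have h6 := (lt_pc hq hg α (n + 1)).1 h5
        have h7 : q n < q (n + 1) := hq (Nat.lt_succ_self n)
        linarith
      have hpβ : r ≤ pc q β := by
        have h5 : r - 1 < pc q β := (lt_pc hq hg β (r - 1)).2 (en_pred hg h (by linarith))
        omega
      have hpα' : (pc q α : ℝ) ≤ n + 1 := by exact_mod_cast hpα
      have hpβ' : (r : ℝ) ≤ pc q β := by exact_mod_cast hpβ
      have c1 := hp α hα
      have c2 := hp β (hα.trans hαβ)
      have hs2 : √β ≤ 2 * √α := by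
        rw [Real.sqrt_le_left (by positivity)]
        have : √α * √α = α := Real.mul_self_sqrt (by linarith)
        nlinarith
      have c2' : C * √β ≤ C * (2 * √α) := mul_le_mul_of_nonneg_left hs2 hC
      have c3 := li_inc hα hαβ
      have c4 : (β - α) / Real.log α ≤ A * √α := by
        rw [div_le_iff₀ (log_pos' (by linarith))]
        have : β - α = h α := by rw [hβ]; ring
        rw [this]
        exact a1
      rw [abs_le] at c1 c2
      have h5 : (r : ℝ) - n - 1 ≤ (A + 3 * C) * √α := by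
        have e : (A + 3 * C) * √α = A * √α + (C * √α + C * (2 * √α)) := by ring
        rw [e]
        linarith [c1.1, c2.2]
      have h6 : (A + 3 * C) * √α ≤ (A + 3 * C) * √x :=
        mul_le_mul_of_nonneg_left (Real.sqrt_le_sqrt hJ1) (by positivity)
      have e : (2 + A + 3 * C) * √x = 2 * √x + (A + 3 * C) * √x := by ring
      rw [e]
      linarith
    · have hemp : S = ∅ := by
        rw [Set.eq_empty_iff_forall_notMem]
        intro n hn
        obtain ⟨k, hk⟩ := hSin n hn
        have h1 : q (st q h n0 0) ≤ q (st q h n0 k) := hq.monotone ((st_mono hg h n0).monotone (Nat.zero_le k))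
        have h2 := hq hk.1
        have h3 := hn.1
        linarith
      rw [hemp, Set.ncard_empty]
      push_cast
      positivity

omit hq in
/-- the moved points stay to the left of the end of the hole -/
theorem fv_le {n j : ℕ} (hj : j ≤ en q h n) : fv q h n j ≤ q (en q h n) := by
  have h1 : (n : ℝ) < en q h n := by exact_mod_cast en_gt hg h n
  have h2 := en_ge hg h n
  have h3 : (j : ℝ) ≤ en q h n := by exact_mod_cast hj
  unfold fv
  have h4 : ((j : ℝ) - n) / ((en q h n : ℝ) - n) ≤ 1 := by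
    rw [div_le_one (by linarith)]
    linarith
  have := mul_le_mul_of_nonneg_left h4 (show 0 ≤ q (en q h n) - (q n + h (q n)) by linarith)
  linarith

omit hq in
/-- the count in the hole -/
theorem pc_in {n0 k : ℕ} (hm : StrictMono (qh q h n0)) (hg' : ∀ n : ℕ, (n : ℝ) + 1 ≤ qh q h n0 n) {y : ℝ}
    (h1 : q (st q h n0 k) ≤ y) (h2 : y ≤ q (st q h n0 k) + h (q (st q h n0 k))) :
    pc (qh q h n0) y = st q h n0 k + 1 := by
  refine le_antisymm ?_ ?_
  · by_contra h3
    push Not at h3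
    have h4 := (lt_pc hm hg' y (st q h n0 k + 1)).1 h3
    rw [qh_next hg h le_rfl (en_gt hg h _)] at h4
    have h5 := fv_gt hg h (Nat.lt_succ_self (st q h n0 k))
    rw [Nat.succ_eq_add_one] at h5
    linarith
  · refine (lt_pc hm hg' y (st q h n0 k)).2 ?_
    rw [qh_st hg h]
    exact h1

theorem pc_self (n : ℕ) : pc q (q n) = n + 1 := by
  refine le_antisymm ?_ ((lt_pc hq hg (q n) n).2 le_rfl)
  by_contra h3
  push Not at h3
  have h4 := (lt_pc hq hg (q n) (n + 1)).1 h3
  have h5 : q n < q (n + 1) := hq (Nat.lt_succ_self n)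
  linarith

/-- outside the holes nothing is changed -/
theorem le_pc_out {n0 : ℕ} (hm : StrictMono (qh q h n0)) (hg' : ∀ n : ℕ, (n : ℝ) + 1 ≤ qh q h n0 n) {x : ℝ}
    (hout : ∀ k, q (st q h n0 k) ≤ x → q (en q h (st q h n0 k)) ≤ x) : pc q x ≤ pc (qh q h n0) x := by
  by_contra h3
  push Not at h3
  set j := pc (qh q h n0) x with hj
  have h4 := (lt_pc hq hg x j).1 h3
  have h5 : qh q h n0 j ≤ x := by
    by_cases hn : ∃ k, InH q h n0 k j
    · obtain ⟨k, hk⟩ := hn
      rw [qh_in hg h hk]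
      have h6 : q (st q h n0 k) ≤ x := (hq hk.1).le.trans h4
      exact (fv_le hg hk.2.le).trans (hout k h6)
    · rw [qh_out h hn]
      exact h4
  have h6 := (lt_pc hm hg' x j).2 h5
  rw [← hj] at h6
  exact lt_irrefl _ h6

/-- the sequence grows slowly -/
theorem grow (hE : ∀ ε : ℝ, 0 < ε → ∀ᶠ x in atTop, |MM x - pc q x| * Real.log x ≤ ε * h x)
    (hsm : ∀ᶠ x in atTop, h x ≤ x) : ∀ᶠ n : ℕ in atTop, 2 * q n ≤ (n : ℝ) ^ 2 := by
  have h1 : ∀ᶠ x : ℝ in atTop, x / 4 ≤ pc q x * Real.log x := by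
    filter_upwards [hE (1 / 8) (by norm_num), hsm, eventually_ge_atTop 8] with x h1 h2 h3
    have hl := log_pos' (show 1 < x by linarith)
    have h4 := le_MM_inc (a := 2) (b := x) le_rfl (by linarith)
    have h5 := MM_nonneg (x := 2) (by norm_num)
    have h6 : (x - 2) / 2 ≤ MM x * Real.log x := by
      have h7 : (x - 2) / (2 * Real.log x) ≤ MM x := by linarith
      have h8 := mul_le_mul_of_nonneg_right h7 hl.le
      have e : (x - 2) / (2 * Real.log x) * Real.log x = (x - 2) / 2 := by field_simp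
      linarith
    have h7 : (MM x - pc q x) * Real.log x ≤ |MM x - pc q x| * Real.log x :=
      mul_le_mul_of_nonneg_right (le_abs_self _) hl.le
    nlinarith
  have h2 : Tendsto (fun n : ℕ => (n : ℝ) ^ 2 / 2) atTop atTop := by
    refine Tendsto.atTop_div_const (by norm_num) ?_
    exact (tendsto_pow_atTop two_ne_zero).comp tendsto_natCast_atTop_atTop
  have h3 : ∀ᶠ n : ℕ in atTop, 16 * Real.log (n : ℝ) ^ 1 ≤ ((n : ℝ)) ^ (1 : ℝ) :=
    tendsto_natCast_atTop_atTop.eventually (log_pow_le one_pos 1 16)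
  filter_upwards [h2.eventually h1, h3, eventually_ge_atTop 3] with n h4 h5 h6
  rw [pow_one, Real.rpow_one] at h5
  have hn : (3 : ℝ) ≤ n := by exact_mod_cast h6
  have h7 : n < pc q ((n : ℝ) ^ 2 / 2) := by
    by_contra h8
    push Not at h8
    have h9 : (pc q ((n : ℝ) ^ 2 / 2) : ℝ) ≤ n := by exact_mod_cast h8
    have h10 : Real.log ((n : ℝ) ^ 2 / 2) = 2 * Real.log n - Real.log 2 := by
      rw [Real.log_div (by positivity) (by norm_num), Real.log_pow]
      norm_num
    have h11 : 0 < Real.log 2 := Real.log_pos (by norm_num)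
    have h12 : 0 < Real.log ((n : ℝ) ^ 2 / 2) := log_pos' (by nlinarith)
    have h13 := mul_le_mul_of_nonneg_right h9 h12.le
    rw [h10] at h13
    rw [h10] at h4
    nlinarith
  have h8 := (lt_pc hq hg _ n).1 h7
  linarith

/-- **The system with the holes.** -/
theorem holes_hs
    (hp : ∃ C : ℝ, ∀ x : ℝ, 2 ≤ x → |(pc q x : ℝ) - ∫ u in (2 : ℝ)..x, (Real.log u)⁻¹| ≤ C * √x)
    (hlim : Tendsto (fun x => h x / Real.log x) atTop atTop)
    (hup : ∃ A : ℝ, ∀ᶠ x in atTop, h x ≤ A * √x * Real.log x) (hsn : SelfNeglecting h)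
    (hgap : ∀ ε : ℝ, 0 < ε → ∀ᶠ n in atTop, ∀ y : ℝ, q n / 2 ≤ y → q (n + 1) - q n ≤ ε * h y)
    (hE : ∀ ε : ℝ, 0 < ε → ∀ᶠ x in atTop, |MM x - pc q x| * Real.log x ≤ ε * h x) :
    ∃ (q' : ℕ → ℝ) (al be : ℕ → ℝ) (A : ℝ), Moved q q' ∧ HS h q' al be A := by
  obtain ⟨C0, hC0⟩ := hp
  obtain ⟨A0, hA0⟩ := hup
  set C := max C0 0 with hCdef
  set A := max A0 0 with hAdef
  have hC : 0 ≤ C := le_max_right _ _
  have hA : 0 ≤ A := le_max_right _ _
  have hp' : ∀ x : ℝ, 2 ≤ x → |(pc q x : ℝ) - ∫ u in (2 : ℝ)..x, (Real.log u)⁻¹| ≤ C * √x := fun x hx =>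
    (hC0 x hx).trans (mul_le_mul_of_nonneg_right (le_max_left _ _) (Real.sqrt_nonneg _))
  have hinf : Tendsto h atTop atTop := by
    refine tendsto_atTop_mono' (f₁ := fun x => Real.log x) (f₂ := h) _ ?_ Real.tendsto_log_atTop
    filter_upwards [hlim.eventually (eventually_ge_atTop 1), eventually_gt_atTop 1] with x h1 h2
    rw [le_div_iff₀ (log_pos' h2)] at h1
    linarith
  have hev : ∀ᶠ x in atTop, h x ≤ A * √x * Real.log x ∧ 1 ≤ h x ∧ h x ≤ x := by
    have hss : Tendsto (fun x : ℝ => √(√x)) atTop atTop := Real.tendsto_sqrt_atTop.comp Real.tendsto_sqrt_atTop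
    filter_upwards [hA0, hinf.eventually (eventually_ge_atTop 1), eventually_gt_atTop 1,
      hss.eventually (eventually_ge_atTop (4 * A))] with x h1 h2 h3 h4
    have hl := log_pos' h3
    have hx0 : 0 < x := by linarith
    have h5 : h x ≤ A * √x * Real.log x := by
      refine h1.trans ?_
      have : A0 ≤ A := le_max_left _ _
      gcongr
    refine ⟨h5, h2, h5.trans ?_⟩
    have h6 : Real.log x ≤ 4 * √(√x) := by
      have h7 : Real.log x = 4 * Real.log (√(√x)) := by
        rw [Real.log_sqrt (Real.sqrt_nonneg x), Real.log_sqrt hx0.le]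
        ring
      have h8 := Real.log_le_sub_one_of_pos (x := √(√x)) (by positivity)
      linarith
    have e1 : √(√x) * √(√x) = √x := Real.mul_self_sqrt (Real.sqrt_nonneg x)
    have e2 : √x * √x = x := Real.mul_self_sqrt hx0.le
    calc A * √x * Real.log x ≤ A * √x * (4 * √(√x)) := mul_le_mul_of_nonneg_left h6 (by positivity)
      _ = √x * √(√x) * (4 * A) := by ring
      _ ≤ √x * √(√x) * √(√x) := mul_le_mul_of_nonneg_left h4 (by positivity)
      _ = √x * (√(√x) * √(√x)) := by ring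
      _ = x := by rw [e1, e2]
  obtain ⟨X, hX⟩ := hev.exists_forall_of_atTop
  obtain ⟨n1, hn1⟩ := exists_nat_ge X
  set n0 := n1 + 1 with hn0
  have hX' : ∀ n, n0 ≤ n → h (q n) ≤ A * √(q n) * Real.log (q n) ∧ 1 ≤ h (q n) ∧ h (q n) ≤ q n := by
    intro n hn
    refine hX _ ?_
    have h1 := hg n
    have h2 : (n1 : ℝ) ≤ n := by exact_mod_cast (by omega : n1 ≤ n)
    linarith
  have hmv := moved_qh hq hg hA hC (by omega) hp' hX'
  have hg' : ∀ n : ℕ, (n : ℝ) + 1 ≤ qh q h n0 n := moved_hg hq hg hmv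
  have hst : ∀ k, n0 ≤ st q h n0 k := st_ge hg h n0
  have hst' : Tendsto (fun k => st q h n0 k) atTop atTop :=
    tendsto_atTop_mono (fun k => (st_mono hg h n0).le_apply) tendsto_id
  have hen' : Tendsto (fun k => en q h (st q h n0 k)) atTop atTop :=
    tendsto_atTop_mono (fun k => (en_gt hg h (st q h n0 k)).le) hst'
  have hqt : Tendsto q atTop atTop := by
    refine tendsto_atTop_mono hg ?_
    exact tendsto_atTop_add_const_right _ _ tendsto_natCast_atTop_atTop
  have hal : Tendsto (fun k => q (st q h n0 k)) atTop atTop := hqt.comp hst'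
  refine ⟨qh q h n0, fun k => q (st q h n0 k), fun k => q (en q h (st q h n0 k)), A, hmv, ?_⟩
  refine ⟨hmv.1, hg', hA, hlim, hev.mono fun x hx => hx.1, hsn, hal, fun k => hq (en_gt hg h _),
    fun j k hjk => hq (st_en hg h n0 hjk), ?_, ?_, ?_, ?_, ?_, ?_⟩
  · -- far apart
    filter_upwards [hen'.eventually (grow hq hg hE (hev.mono fun x hx => hx.2.2))] with k hk
    have h1 := hg (st q h n0 (k + 1))
    have h2 := st_sq (q := q) h n0 k
    have h3 : (((en q h (st q h n0 k)) ^ 2 : ℕ) : ℝ) ≤ (st q h n0 (k + 1) : ℝ) := by exact_mod_cast h2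
    push_cast at h3
    linarith
  · -- the length
    intro ε hε
    have hen1 : Tendsto (fun k => en q h (st q h n0 k) - 1) atTop atTop := (tendsto_sub_atTop_nat 1).comp hen'
    filter_upwards [hen1.eventually (hgap ε hε)] with k hk
    obtain ⟨a1, a2, a3⟩ := hX' _ (hst k)
    have h1 := en_gt hg h (st q h n0 k)
    have h2 := en_ge hg h (st q h n0 k)
    have h3 := en_pred hg h (n := st q h n0 k) (by linarith)
    have h4 := hk (q (st q h n0 k)) (by linarith)
    have e : en q h (st q h n0 k) - 1 + 1 = en q h (st q h n0 k) := by omega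
    rw [e] at h4
    exact ⟨h2, by linarith⟩
  · -- from below
    intro ε hε
    filter_upwards [hE ε hε, eventually_gt_atTop 1] with x h1 h2
    have hl := log_pos' h2
    have h3 : (pc (qh q h n0) x : ℝ) ≤ pc q x := by exact_mod_cast (moved_pc hq hg hmv x).1
    have h4 : -|MM x - pc q x| ≤ MM x - pc (qh q h n0) x := by
      have := neg_abs_le (MM x - pc q x)
      linarith
    have h5 := mul_le_mul_of_nonneg_right h4 hl.le
    linarith
  · -- outside
    intro ε hε
    filter_upwards [hE ε hε, eventually_gt_atTop 1] with x h1 h2 hout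
    have hl := log_pos' h2
    have h3 : (pc q x : ℝ) ≤ pc (qh q h n0) x := by exact_mod_cast le_pc_out hq hg hmv.1 hg' hout
    have h4 : MM x - pc (qh q h n0) x ≤ |MM x - pc q x| := by
      have := le_abs_self (MM x - pc q x)
      linarith
    exact (mul_le_mul_of_nonneg_right h4 hl.le).trans h1
  · -- inside
    intro ε hε
    filter_upwards [hal.eventually (hE ε hε), hal.eventually (eventually_gt_atTop 1)] with k h1 h2 x hx1 hx2
    have hl := log_pos' h2
    have h3 : pc q (q (st q h n0 k)) ≤ pc (qh q h n0) x := by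
      rw [pc_self hq hg]
      refine (lt_pc hmv.1 hg' x (st q h n0 k)).2 ?_
      rw [qh_st hg h]
      exact hx1
    have h3' : (pc q (q (st q h n0 k)) : ℝ) ≤ pc (qh q h n0) x := by exact_mod_cast h3
    have h4 := MM_inc_le h2 hx1
    have h5 : MM x - pc (qh q h n0) x ≤ (x - q (st q h n0 k)) / Real.log (q (st q h n0 k)) +
        |MM (q (st q h n0 k)) - pc q (q (st q h n0 k))| := by
      have := le_abs_self (MM (q (st q h n0 k)) - pc q (q (st q h n0 k)))
      linarith
    have h6 := mul_le_mul_of_nonneg_right h5 hl.le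
    have e : ((x - q (st q h n0 k)) / Real.log (q (st q h n0 k)) +
        |MM (q (st q h n0 k)) - pc q (q (st q h n0 k))|) * Real.log (q (st q h n0 k)) =
          (x - q (st q h n0 k)) +
            |MM (q (st q h n0 k)) - pc q (q (st q h n0 k))| * Real.log (q (st q h n0 k)) := by
      rw [add_mul, div_mul_cancel₀ _ hl.ne']
    rw [e] at h6
    linarith
  · -- no points
    refine Eventually.of_forall fun k x h1 h2 => ?_
    rw [pc_in hg hmv.1 hg' h1 h2, pc_in hg hmv.1 hg' le_rfl (by linarith [(hX' _ (hst k)).2.1])]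

end

end Pool.Agent.H34.BK
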