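import Pool.Agent.H49.KZ.Inst
import Pool.Agent.H49.BZ.Win

/-!
# The density with prescribed zeros is `(1 + o(1)) / log u`
-/

set_option autoImplicit false

open MeasureTheory Filter Topology Set

namespace Pool.Agent.H34.BK.G

open Pool.Agent.H49.BZ

variable {γ : ℕ → ℝ}

/-- few zeros are felt at `u` -/
theorem idx_le (h0 : ∀ k, 0 < γ k) (hm : Monotone γ) (hW : Windows γ) : ∃ C : ℝ, 1 ≤ C ∧
    ∀ u : ℝ, 1 ≤ u → ∀ k : ℕ, UU γ k ≤ u → (k : ℝ) + 1 ≤ C * u ^ (3 / 8 : ℝ) := by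
  obtain ⟨C, hC1, hC⟩ := idx h0 hm hW
  refine ⟨C, hC1, fun u hu k hk => ?_⟩
  have hk0 : (0 : ℝ) ≤ k := Nat.cast_nonneg k
  have hg := h0 k
  have hu0 : 0 < u := by linarith
  have h1 : ((k : ℝ) + 1) ^ 2 * (1 + γ k) ≤ u := by
    refine le_trans ?_ ((UU_ge h0 k).trans hk)
    refine mul_le_mul_of_nonneg_right ?_ (by linarith)
    nlinarith
  have h2 := Real.rpow_le_rpow (by positivity) h1 (show (0 : ℝ) ≤ 3 / 2 by norm_num)
  rw [Real.mul_rpow (by positivity) (by linarith)] at h2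
  have e : (((k : ℝ) + 1) ^ 2) ^ (3 / 2 : ℝ) = ((k : ℝ) + 1) ^ 3 := by
    rw [← Real.rpow_natCast ((k : ℝ) + 1) 2, ← Real.rpow_mul (by linarith), ← Real.rpow_natCast ((k : ℝ) + 1) 3]
    congr 1
    norm_num
  rw [e] at h2
  have h3 : ((k : ℝ) + 1) ^ 4 ≤ C * u ^ (3 / 2 : ℝ) := by
    have h4 := mul_le_mul_of_nonneg_left (hC k) (show (0 : ℝ) ≤ ((k : ℝ) + 1) ^ 3 by positivity)
    have h5 := mul_le_mul_of_nonneg_left h2 (show 0 ≤ C by linarith)
    calc ((k : ℝ) + 1) ^ 4 = ((k : ℝ) + 1) ^ 3 * ((k : ℝ) + 1) := by ring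
      _ ≤ ((k : ℝ) + 1) ^ 3 * (C * (1 + γ k) ^ (3 / 2 : ℝ)) := h4
      _ = C * (((k : ℝ) + 1) ^ 3 * (1 + γ k) ^ (3 / 2 : ℝ)) := by ring
      _ ≤ _ := h5
  by_contra h4
  push Not at h4
  have hp : 0 < u ^ (3 / 8 : ℝ) := Real.rpow_pos_of_pos hu0 _
  have h5 : (C * u ^ (3 / 8 : ℝ)) ^ 4 < ((k : ℝ) + 1) ^ 4 := pow_lt_pow_left₀ h4 (by positivity) (by norm_num)
  have e2 : (C * u ^ (3 / 8 : ℝ)) ^ 4 = C ^ 4 * u ^ (3 / 2 : ℝ) := by
    rw [mul_pow, ← Real.rpow_natCast (u ^ (3 / 8 : ℝ)) 4, ← Real.rpow_mul hu0.le]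
    congr 2
    norm_num
  rw [e2] at h5
  have h6 : C ≤ C ^ 4 := by
    have := pow_le_pow_right₀ hC1 (show 1 ≤ 4 by norm_num)
    simpa using this
  have h7 := mul_le_mul_of_nonneg_right h6 (Real.rpow_nonneg hu0.le (3 / 2 : ℝ))
  linarith

theorem sum_small (h0 : ∀ k, 0 < γ k) (hm : Monotone γ) (hW : Windows γ) {ε : ℝ} (hε : 0 < ε) :
    ∀ᶠ u : ℝ in atTop, |∑' k, ek γ k u| * Real.log u ≤ ε := by
  obtain ⟨C, hC1, hC⟩ := idx_le h0 hm hW
  have ht : Tendsto (fun u : ℝ => u ^ (1 / 8 : ℝ)) atTop atTop := tendsto_rpow_atTop (by norm_num)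
  filter_upwards [ht.eventually (eventually_ge_atTop (2 * C / ε)), eventually_gt_atTop 1] with u h1 h2
  have hu0 : 0 < u := by linarith
  have hl := Real.log_pos h2
  have hs : 0 < √u := Real.sqrt_pos.2 hu0
  rw [ek_sum h0]
  set c : ℝ := 2 / (√u * Real.log u) with hc
  have hc0 : 0 < c := by positivity
  set F : Finset ℕ := (Finset.range (KK u)).filter fun k => UU γ k ≤ u with hF
  have h3 : |∑ k ∈ Finset.range (KK u), ek γ k u| ≤ (F.card : ℝ) * c := by
    refine (Finset.abs_sum_le_sum_abs _ _).trans ?_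
    calc ∑ k ∈ Finset.range (KK u), |ek γ k u| ≤ ∑ k ∈ Finset.range (KK u), if UU γ k ≤ u then c else 0 := by
          refine Finset.sum_le_sum fun k _ => ?_
          by_cases hk : UU γ k ≤ u
          · rw [if_pos hk]
            exact ek_abs k h2
          · rw [if_neg hk]
            unfold ek
            rw [if_neg hk, abs_zero]
      _ = ∑ k ∈ F, c := (Finset.sum_filter _ _).symm
      _ = _ := by rw [Finset.sum_const, nsmul_eq_mul]
  have hp : 0 < u ^ (3 / 8 : ℝ) := Real.rpow_pos_of_pos hu0 _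
  have h4 : (F.card : ℝ) ≤ C * u ^ (3 / 8 : ℝ) := by
    have h5 : F ⊆ Finset.range ⌊C * u ^ (3 / 8 : ℝ)⌋₊ := by
      intro k hk
      rw [hF, Finset.mem_filter] at hk
      have h6 := hC u h2.le k hk.2
      rw [Finset.mem_range]
      have h7 : ((k + 1 : ℕ) : ℝ) ≤ C * u ^ (3 / 8 : ℝ) := by
        push_cast
        exact h6
      exact Nat.lt_of_succ_le (Nat.le_floor h7)
    have h6 := Finset.card_le_card h5
    rw [Finset.card_range] at h6
    have h7 : (F.card : ℝ) ≤ (⌊C * u ^ (3 / 8 : ℝ)⌋₊ : ℝ) := by exact_mod_cast h6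
    exact h7.trans (Nat.floor_le (by positivity))
  have e1 : u ^ (3 / 8 : ℝ) * u ^ (1 / 8 : ℝ) = √u := by
    rw [← Real.rpow_add hu0, Real.sqrt_eq_rpow]
    norm_num
  have hq : 0 < u ^ (1 / 8 : ℝ) := Real.rpow_pos_of_pos hu0 _
  rw [div_le_iff₀ hε] at h1
  have h8 : C * u ^ (3 / 8 : ℝ) * 2 ≤ ε * √u := by
    rw [← e1]
    nlinarith
  calc |∑ k ∈ Finset.range (KK u), ek γ k u| * Real.log u ≤ ((F.card : ℝ) * c) * Real.log u :=
        mul_le_mul_of_nonneg_right h3 hl.le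
    _ ≤ (C * u ^ (3 / 8 : ℝ) * c) * Real.log u :=
        mul_le_mul_of_nonneg_right (mul_le_mul_of_nonneg_right h4 hc0.le) hl.le
    _ = C * u ^ (3 / 8 : ℝ) * 2 / √u := by
        rw [hc]
        field_simp
    _ ≤ ε := by
        rw [div_le_iff₀ hs]
        exact h8

theorem nd_lim (h0 : ∀ k, 0 < γ k) (hm : Monotone γ) (hW : Windows γ) {ε : ℝ} (hε : 0 < ε) :
    ∀ᶠ u : ℝ in atTop, |nd γ u * Real.log u - 1| ≤ ε := by
  filter_upwards [sum_small h0 hm hW (half_pos hε), eventually_gt_atTop 1,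
    Real.tendsto_sqrt_atTop.eventually (eventually_ge_atTop (4 / ε))] with u h1 h2 h3
  have hl := Real.log_pos h2
  have hs : 1 ≤ √u := Real.one_le_sqrt.2 h2.le
  have hs0 : 0 < √u := by linarith
  have e : u⁻¹ = (√u)⁻¹ * (√u)⁻¹ := by
    rw [← mul_inv, Real.mul_self_sqrt (by linarith)]
  have h4 : (√u)⁻¹ ≤ ε / 4 := by
    rw [inv_le_comm₀ hs0 (by positivity)]
    calc (ε / 4)⁻¹ = 4 / ε := by rw [inv_div]
      _ ≤ √u := h3
  have h5 : 0 < (√u)⁻¹ := by positivity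
  have h6 : (√u)⁻¹ ≤ 1 := inv_le_one_of_one_le₀ hs
  have e2 : nd γ u * Real.log u - 1 = (-(u⁻¹) - 1 / 2 * ((√u)⁻¹ - u⁻¹)) - (∑' k, ek γ k u) * Real.log u := by
    unfold nd
    field_simp
    ring
  rw [e2]
  have h7 : |(∑' k, ek γ k u) * Real.log u| ≤ ε / 2 := by
    rw [abs_mul, abs_of_pos hl]
    exact h1
  have h8 : |(-(u⁻¹) - 1 / 2 * ((√u)⁻¹ - u⁻¹))| ≤ ε / 2 := by
    rw [e, abs_le]
    constructor <;> nlinarith
  refine (abs_sub _ _).trans ?_
  linarith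

theorem inc_ge [Dens] {x H c : ℝ} (hx : 1 ≤ x) (hH : 0 ≤ H) (hc : ∀ u, x ≤ u → u ≤ x + H → c ≤ md u) :
    c * H ≤ MM (x + H) - MM x := by
  rw [MM_sub hx (by linarith)]
  have h1 := intervalIntegral.integral_mono_on (show x ≤ x + H by linarith)
    (intervalIntegrable_const (c := c)) (md_int hx (by linarith)) (fun u hu => hc u hu.1 hu.2)
  refine le_trans (le_of_eq ?_) h1
  rw [intervalIntegral.integral_const, smul_eq_mul]
  ring

theorem inc_le [Dens] {x H c : ℝ} (hx : 1 ≤ x) (hH : 0 ≤ H) (hc : ∀ u, x ≤ u → u ≤ x + H → md u ≤ c) :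
    MM (x + H) - MM x ≤ c * H := by
  rw [MM_sub hx (by linarith)]
  have h1 := intervalIntegral.integral_mono_on (show x ≤ x + H by linarith)
    (md_int hx (by linarith)) (intervalIntegrable_const (c := c)) (fun u hu => hc u hu.1 hu.2)
  refine le_trans h1 (le_of_eq ?_)
  rw [intervalIntegral.integral_const, smul_eq_mul]
  ring

theorem mass_le (h0 : ∀ k, 0 < γ k) (hm : Monotone γ) (hW : Windows γ) (ε : ℝ) (hε : 0 < ε) :
    ∀ᶠ x : ℝ in atTop, ∀ H : ℝ, 0 ≤ H → H ≤ x →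
      (@MM (dens γ h0) (x + H) - @MM (dens γ h0) x) * Real.log x ≤ (1 + ε) * H := by
  obtain ⟨X, hX⟩ := eventually_atTop.1 (nd_lim h0 hm hW hε)
  filter_upwards [eventually_ge_atTop X, eventually_gt_atTop 1] with x h1 h2 H hH0 hHx
  have hl := Real.log_pos h2
  have h3 : @MM (dens γ h0) (x + H) - @MM (dens γ h0) x ≤ (1 + ε) / Real.log x * H := by
    refine @inc_le (dens γ h0) x H _ h2.le hH0 fun u hu1 _ => ?_
    show nd γ u ≤ _
    have h4 := abs_le.1 (hX u (h1.trans hu1))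
    have hl2 : Real.log x ≤ Real.log u := Real.log_le_log (by linarith) hu1
    have h5 : nd γ u ≤ (1 + ε) / Real.log u := by
      rw [le_div_iff₀ (by linarith)]
      linarith [h4.2]
    exact h5.trans (div_le_div_of_nonneg_left (by linarith) hl hl2)
  have h4 := mul_le_mul_of_nonneg_right h3 hl.le
  refine h4.trans (le_of_eq ?_)
  field_simp

theorem mass_ge (h0 : ∀ k, 0 < γ k) (hm : Monotone γ) (hW : Windows γ) (ε : ℝ) (hε : 0 < ε) :
    ∀ᶠ x : ℝ in atTop, ∀ H : ℝ, 0 ≤ H → H ≤ x →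
      (1 - ε) * H ≤ (@MM (dens γ h0) (x + H) - @MM (dens γ h0) x) * Real.log x := by
  rcases le_or_gt 1 ε with hε1 | hε1
  · filter_upwards [eventually_gt_atTop 1] with x h2 H hH0 hHx
    have h3 := @MM_le (dens γ h0) x (x + H) h2.le (by linarith)
    have h4 : 0 ≤ (@MM (dens γ h0) (x + H) - @MM (dens γ h0) x) * Real.log x :=
      mul_nonneg (by linarith) (Real.log_pos h2).le
    nlinarith
  obtain ⟨X, hX⟩ := eventually_atTop.1 (nd_lim h0 hm hW (show 0 < ε / 2 by linarith))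
  filter_upwards [eventually_ge_atTop X, eventually_gt_atTop 1,
    Real.tendsto_log_atTop.eventually (eventually_ge_atTop (Real.log 2 / (ε / 2)))] with x h1 h2 h2' H hH0 hHx
  have hl := Real.log_pos h2
  have h3 : (1 - ε) / Real.log x * H ≤ @MM (dens γ h0) (x + H) - @MM (dens γ h0) x := by
    refine @inc_ge (dens γ h0) x H _ h2.le hH0 fun u hu1 hu2 => ?_
    show _ ≤ nd γ u
    have h4 := abs_le.1 (hX u (h1.trans hu1))
    have hl2 : Real.log x ≤ Real.log u := Real.log_le_log (by linarith) hu1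
    have hl3 : Real.log u ≤ (1 + ε / 2) * Real.log x := by
      have h5 : Real.log u ≤ Real.log (2 * x) := Real.log_le_log (by linarith) (by linarith)
      rw [Real.log_mul (by norm_num) (by linarith)] at h5
      rw [div_le_iff₀ (by linarith)] at h2'
      linarith
    have h5 : (1 - ε / 2) / Real.log u ≤ nd γ u := by
      rw [div_le_iff₀ (by linarith)]
      linarith [h4.1]
    refine le_trans ?_ h5
    rw [div_le_div_iff₀ hl (by linarith)]
    have h6 : (1 - ε) * Real.log u ≤ (1 - ε) * ((1 + ε / 2) * Real.log x) :=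
      mul_le_mul_of_nonneg_left hl3 (by linarith)
    nlinarith
  have h4 := mul_le_mul_of_nonneg_right h3 hl.le
  refine le_trans (le_of_eq ?_) h4
  field_simp

end Pool.Agent.H34.BK.G
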