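import Pool.Agent.H34.BK.ThrG
import Pool.Agent.H34.BK.Hol3
import Pool.Agent.H34.BK.Dn
import Pool.Agent.H34.BK.Base
import Pool.Agent.H73.KZ.A3

/-!
# The block systems with holes, for a general density
-/

set_option autoImplicit false

open MeasureTheory Filter Topology Set

namespace Pool.Agent.H34.BK.G

open Pool.Agent.H49.BP (pc lt_pc)
open Pool.Agent.H34.BW Pool.Agent.H34.BK
open Pool.Agent.H73.TR
open Pool.Agent.H73.KT (Mb Slow Mb_zero Mb_succ Mb_mono le_Mb exists_index qh st en fv qh_in qh_out qh_st qh_next en_gt en_ge en_pred st_mono st_ge st_sq st_en fv_gt Moved moved_hg moved_pc)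
open Pool.Agent.H49.BZ (Dens md MM MM_le MM_nonneg le_MM_inc)
open Pool.Agent.H73.KZ (tb ln Blocks Enum pc_block exists_block tb_ge tb_one_le tb_mono MM_tb MM_block)

variable [Dens]

/-- the counting function of the block system differs from the mass by `o(h / log)` -/
theorem base_count {h : ℝ → ℝ} (hlim : Tendsto (fun x => h x / Real.log x) atTop atTop) : ∃ V : ℕ → ℕ,
    ∀ (a : ℕ → ℕ) (S : ℕ → Finset ℝ) (q : ℕ → ℝ),
    (Slow a ∧ (∀ b, a b ≠ 0 → V (a b) ≤ b) ∧ Blocks a S ∧ Enum a S q ∧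
      (∀ b, ∀ x ∈ S b, ∀ y ∈ S (b + 1), ∀ k : ℕ, y ≠ x + (k : ℝ)) ∧
      ∀ b, ∀ x ∈ S b, ∀ y ∈ S b, ∀ d : ℕ, a b < d → (d : ℝ) + a b < ln a b / ((a b : ℝ) + 2) → y ≠ x + (d : ℝ)) →
    ∀ ε : ℝ, 0 < ε → ∀ᶠ x in atTop, |MM x - pc q x| * Real.log x ≤ ε * h x := by
  have h1 : ∀ k : ℕ, ∃ V : ℕ, ∀ y : ℝ, (V : ℝ) ≤ y → ((k : ℝ) + 1) ^ 2 ≤ h y / Real.log y ∧ 1 < y := by
    intro k
    obtain ⟨B, hB⟩ := eventually_atTop.1 ((hlim.eventually (eventually_ge_atTop (((k : ℝ) + 1) ^ 2))).and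
      (eventually_gt_atTop 1))
    obtain ⟨V, hV⟩ := exists_nat_ge B
    exact ⟨V, fun y hy => hB y (by linarith)⟩
  choose V hV using h1
  refine ⟨V, fun a S q ⟨ha, haV, hS, hq, _, _⟩ ε hε => ?_⟩
  obtain ⟨K, hK⟩ := exists_nat_gt (1 / ε)
  obtain ⟨J0, hJ0⟩ := eventually_atTop.1 (ha.2.1.eventually (eventually_ge_atTop (K + 1)))
  filter_upwards [eventually_ge_atTop (tb a J0), eventually_ge_atTop 1] with x hx hx1
  obtain ⟨J, hJ1, hJ2⟩ := exists_block (a := a) hx1
  have hJJ : J0 ≤ J := by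
    have h3 : tb a J0 < tb a (J + 1) := lt_of_le_of_lt hx hJ2
    have := tb_mono.lt_iff_lt.1 h3
    omega
  have haK : K + 1 ≤ a J := hJ0 J hJJ
  have haK' : (K : ℝ) + 1 ≤ a J := by exact_mod_cast haK
  have hVx : (V (a J) : ℝ) ≤ x := by
    have h3 : (V (a J) : ℝ) ≤ J := by exact_mod_cast haV J (by omega)
    have h4 := tb_ge (a := a) J
    linarith
  obtain ⟨h3, h4⟩ := hV (a J) x hVx
  have hl := Real.log_pos h4
  rw [le_div_iff₀ hl] at h3
  obtain ⟨h5, h6⟩ := pc_block hS hq hJ1 hJ2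
  have h5' : (Mb a J : ℝ) ≤ pc q x := by exact_mod_cast h5
  have h6' : (pc q x : ℝ) ≤ Mb a J + (a J + 1) := by exact_mod_cast h6
  have h7 := MM_le (tb_one_le (a := a) J) hJ1
  have h8 := MM_le hx1 hJ2.le
  have h9 := MM_block (a := a) J
  simp only [MM_tb] at h7 h8 h9
  have h10 : |MM x - pc q x| ≤ (a J : ℝ) + 1 := by
    rw [abs_le]
    constructor <;> linarith
  have h11 : 1 ≤ ε * ((a J : ℝ) + 1) := by
    rw [div_lt_iff₀ hε] at hK
    nlinarith
  calc |MM x - pc q x| * Real.log x ≤ ((a J : ℝ) + 1) * Real.log x := mul_le_mul_of_nonneg_right h10 hl.le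
    _ = 1 * (((a J : ℝ) + 1) * Real.log x) := by ring
    _ ≤ (ε * ((a J : ℝ) + 1)) * (((a J : ℝ) + 1) * Real.log x) :=
        mul_le_mul_of_nonneg_right h11 (by positivity)
    _ = ε * (((a J : ℝ) + 1) ^ 2 * Real.log x) := by ring
    _ ≤ ε * h x := mul_le_mul_of_nonneg_left h3 hε.le

section
variable {q : ℕ → ℝ} {h : ℝ → ℝ} (hq : StrictMono q) (hg : ∀ n : ℕ, (n : ℝ) + 1 ≤ q n)
include hq hg

/-- the sequence grows slowly -/
theorem grow (hE : ∀ ε : ℝ, 0 < ε → ∀ᶠ x in atTop, |MM x - pc q x| * Real.log x ≤ ε * h x)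
    (hsm : ∀ᶠ x in atTop, h x ≤ x) : ∀ᶠ n : ℕ in atTop, 2 * q n ≤ (n : ℝ) ^ 2 := by
  have h1 : ∀ᶠ x : ℝ in atTop, x / 32 ≤ pc q x * Real.log x := by
    filter_upwards [hE (1 / 32) (by norm_num), hsm, eventually_ge_atTop 4] with x h1 h2 h3
    have hl := Real.log_pos (show 1 < x by linarith)
    have h4 := le_MM_inc (a := 2) (b := x) le_rfl (by linarith)
    have h5 := MM_nonneg (x := 2) (by norm_num)
    have h6 : (x - 2) / 8 ≤ MM x * Real.log x := by
      have h7 : (x - 2) / (8 * Real.log x) ≤ MM x := by linarith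
      have h8 := mul_le_mul_of_nonneg_right h7 hl.le
      have e : (x - 2) / (8 * Real.log x) * Real.log x = (x - 2) / 8 := by field_simp
      linarith
    have h7 : (MM x - pc q x) * Real.log x ≤ |MM x - pc q x| * Real.log x :=
      mul_le_mul_of_nonneg_right (le_abs_self _) hl.le
    nlinarith
  have h2 : Tendsto (fun n : ℕ => (n : ℝ) ^ 2 / 2) atTop atTop := by
    refine Tendsto.atTop_div_const (by norm_num) ?_
    exact (tendsto_pow_atTop two_ne_zero).comp tendsto_natCast_atTop_atTop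
  have h3 : ∀ᶠ n : ℕ in atTop, 256 * Real.log (n : ℝ) ^ 1 ≤ ((n : ℝ)) ^ (1 : ℝ) :=
    tendsto_natCast_atTop_atTop.eventually (log_pow_le one_pos 1 256)
  filter_upwards [h2.eventually h1, h3, eventually_ge_atTop 3] with n h4 h5 h6
  rw [pow_one, Real.rpow_one] at h5
  have hn : (3 : ℝ) ≤ n := by exact_mod_cast h6
  have h7 : n < pc q ((n : ℝ) ^ 2 / 2) := by
    by_contra h8
    push Not at h8
    have h9 : (pc q ((n : ℝ) ^ 2 / 2) : ℝ) ≤ n := by exact_mod_cast h8
    have h10 : Real.log ((n : ℝ) ^ 2 / 2) = 2 * Real.log n - Real.log 2 := by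
      rw [Real.log_div (by positivity) (by norm_num), Real.log_pow]
      norm_num
    have h11 : 0 < Real.log 2 := Real.log_pos (by norm_num)
    have h12 : 0 < Real.log ((n : ℝ) ^ 2 / 2) := Real.log_pos (by nlinarith)
    have h13 := mul_le_mul_of_nonneg_right h9 h12.le
    rw [h10] at h13
    rw [h10] at h4
    nlinarith
  have h8 := (lt_pc hq hg _ n).1 h7
  linarith

/-- **The system with the holes.** -/
theorem holes_hs
    (hge : ∀ ε : ℝ, 0 < ε → ∀ᶠ x in atTop, ∀ H : ℝ, 0 ≤ H → H ≤ x → (1 - ε) * H ≤ (MM (x + H) - MM x) * Real.log x)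
    (hle : ∀ ε : ℝ, 0 < ε → ∀ᶠ x in atTop, ∀ H : ℝ, 0 ≤ H → H ≤ x → (MM (x + H) - MM x) * Real.log x ≤ (1 + ε) * H)
    (hlim : Tendsto (fun x => h x / Real.log x) atTop atTop) (hsn : SelfNeglecting h)
    {n0 : ℕ} {A : ℝ} (hA : 0 ≤ A) (hev : ∀ᶠ x in atTop, h x ≤ A * √x * Real.log x ∧ 1 ≤ h x ∧ h x ≤ x)
    (hX' : ∀ n, n0 ≤ n → h (q n) ≤ A * √(q n) * Real.log (q n) ∧ 1 ≤ h (q n) ∧ h (q n) ≤ q n)
    (hmv : Moved q (qh q h n0))
    (hgap : ∀ ε : ℝ, 0 < ε → ∀ᶠ n in atTop, ∀ y : ℝ, q n / 2 ≤ y → q (n + 1) - q n ≤ ε * h y)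
    (hE : ∀ ε : ℝ, 0 < ε → ∀ᶠ x in atTop, |MM x - pc q x| * Real.log x ≤ ε * h x) :
    ∃ al be : ℕ → ℝ, HS MM h (qh q h n0) al be A := by
  have hg' : ∀ n : ℕ, (n : ℝ) + 1 ≤ qh q h n0 n := moved_hg hq hg hmv
  have hst : ∀ k, n0 ≤ st q h n0 k := st_ge hg h n0
  have hst' : Tendsto (fun k => st q h n0 k) atTop atTop :=
    tendsto_atTop_mono (fun k => (st_mono hg h n0).le_apply) tendsto_id
  have hen' : Tendsto (fun k => en q h (st q h n0 k)) atTop atTop :=
    tendsto_atTop_mono (fun k => (en_gt hg h (st q h n0 k)).le) hst'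
  have hqt : Tendsto q atTop atTop := by
    refine tendsto_atTop_mono hg ?_
    exact tendsto_atTop_add_const_right _ _ tendsto_natCast_atTop_atTop
  have hal : Tendsto (fun k => q (st q h n0 k)) atTop atTop := hqt.comp hst'
  have hlen : ∀ ε : ℝ, 0 < ε → ∀ᶠ k in atTop, q (st q h n0 k) + h (q (st q h n0 k)) < q (en q h (st q h n0 k)) ∧
      q (en q h (st q h n0 k)) - q (st q h n0 k) ≤ (1 + ε) * h (q (st q h n0 k)) := by
    intro ε hε
    have hen1 : Tendsto (fun k => en q h (st q h n0 k) - 1) atTop atTop := (tendsto_sub_atTop_nat 1).comp hen'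
    filter_upwards [hen1.eventually (hgap ε hε)] with k hk
    obtain ⟨a1, a2, a3⟩ := hX' _ (hst k)
    have h1 := en_gt hg h (st q h n0 k)
    have h2 := en_ge hg h (st q h n0 k)
    have h3 := en_pred hg h (n := st q h n0 k) (by linarith)
    have h4 := hk (q (st q h n0 k)) (by linarith)
    have e : en q h (st q h n0 k) - 1 + 1 = en q h (st q h n0 k) := by omega
    rw [e] at h4
    exact ⟨h2, by linarith⟩
  have hsmall : ∀ᶠ x in atTop, 2 * h x ≤ x := by
    have h1 : ∀ᶠ x : ℝ in atTop, ‖Real.log x‖ ≤ 1 / 2 / (A + 1) * ‖x ^ (1 / 2 : ℝ)‖ :=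
      (isLittleO_log_rpow_atTop (show (0 : ℝ) < 1 / 2 by norm_num)).bound (by positivity)
    filter_upwards [h1, hev, eventually_gt_atTop 1] with x h2 h3 h4
    have hl := Real.log_pos h4
    rw [Real.norm_of_nonneg hl.le, Real.norm_of_nonneg (Real.rpow_nonneg (by linarith) _), ← Real.sqrt_eq_rpow] at h2
    have hs : 0 < √x := Real.sqrt_pos.2 (by linarith)
    have e2 : √x * √x = x := Real.mul_self_sqrt (by linarith)
    have h5 : A * √x * Real.log x ≤ A * √x * (1 / 2 / (A + 1) * √x) :=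
      mul_le_mul_of_nonneg_left h2 (by positivity)
    have e3 : A * √x * (1 / 2 / (A + 1) * √x) = A / (A + 1) * (x / 2) := by
      have e4 : A * √x * (1 / 2 / (A + 1) * √x) = A / (A + 1) * (√x * √x / 2) := by
        field_simp
      rw [e4, e2]
    have h6 : A / (A + 1) ≤ 1 := by
      rw [div_le_one (by linarith)]
      linarith
    have h7 : A / (A + 1) * (x / 2) ≤ 1 * (x / 2) := mul_le_mul_of_nonneg_right h6 (by linarith)
    linarith [h3.1]
  refine ⟨fun k => q (st q h n0 k), fun k => q (en q h (st q h n0 k)), ?_⟩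
  refine ⟨fun a b ha hab => MM_le ha hab, hge, hle, hmv.1, hg', hA, hlim, hev.mono fun x hx => hx.1, hsn, hal,
    fun k => hq (en_gt hg h _), fun j k hjk => hq (st_en hg h n0 hjk), ?_, hlen, ?_, ?_, ?_, ?_⟩
  · -- far apart
    filter_upwards [hen'.eventually (grow hq hg hE (hev.mono fun x hx => hx.2.2))] with k hk
    have h1 := hg (st q h n0 (k + 1))
    have h2 := st_sq (q := q) h n0 k
    have h3 : (((en q h (st q h n0 k)) ^ 2 : ℕ) : ℝ) ≤ (st q h n0 (k + 1) : ℝ) := by exact_mod_cast h2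
    push_cast at h3
    linarith
  · -- from below
    intro ε hε
    filter_upwards [hE ε hε, eventually_gt_atTop 1] with x h1 h2
    have hl := Real.log_pos h2
    have h3 : (pc (qh q h n0) x : ℝ) ≤ pc q x := by exact_mod_cast (moved_pc hq hg hmv x).1
    have h4 : -|MM x - pc q x| ≤ MM x - pc (qh q h n0) x := by
      have := neg_abs_le (MM x - pc q x)
      linarith
    have h5 := mul_le_mul_of_nonneg_right h4 hl.le
    linarith
  · -- outside
    intro ε hε
    filter_upwards [hE ε hε, eventually_gt_atTop 1] with x h1 h2 hout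
    have hl := Real.log_pos h2
    have h3 : (pc q x : ℝ) ≤ pc (qh q h n0) x := by exact_mod_cast le_pc_out hq hg hmv.1 hg' hout
    have h4 : MM x - pc (qh q h n0) x ≤ |MM x - pc q x| := by
      have := le_abs_self (MM x - pc q x)
      linarith
    exact (mul_le_mul_of_nonneg_right h4 hl.le).trans h1
  · -- inside
    intro ε hε
    filter_upwards [hal.eventually (hE (ε / 2) (half_pos hε)), hal.eventually (eventually_gt_atTop 1),
      hal.eventually (hle (ε / 4) (by linarith)), hal.eventually hsmall, hlen 1 one_pos] with k h1 h2 h3 h4 h5 x hx1 hx2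
    have hl := Real.log_pos h2
    have h6 : pc q (q (st q h n0 k)) ≤ pc (qh q h n0) x := by
      rw [pc_self hq hg]
      refine (lt_pc hmv.1 hg' x (st q h n0 k)).2 ?_
      rw [qh_st hg h]
      exact hx1
    have h6' : (pc q (q (st q h n0 k)) : ℝ) ≤ pc (qh q h n0) x := by exact_mod_cast h6
    have h7 := h3 (x - q (st q h n0 k)) (by linarith) (by linarith [h5.2])
    have e : q (st q h n0 k) + (x - q (st q h n0 k)) = x := by ring
    rw [e] at h7
    have h8 : MM x - pc (qh q h n0) x ≤ (MM x - MM (q (st q h n0 k))) +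
        |MM (q (st q h n0 k)) - pc q (q (st q h n0 k))| := by
      have := le_abs_self (MM (q (st q h n0 k)) - pc q (q (st q h n0 k)))
      linarith
    have h9 := mul_le_mul_of_nonneg_right h8 hl.le
    rw [add_mul] at h9
    have h10 : ε / 4 * (x - q (st q h n0 k)) ≤ ε / 4 * (2 * h (q (st q h n0 k))) :=
      mul_le_mul_of_nonneg_left (by linarith [h5.2]) (by linarith)
    nlinarith
  · -- no points
    refine Eventually.of_forall fun k x h1 h2 => ?_
    rw [pc_in hg hmv.1 hg' h1 h2, pc_in hg hmv.1 hg' le_rfl (by linarith [(hX' _ (hst k)).2.1])]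

end

end Pool.Agent.H34.BK.G
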