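import Pool.Agent.H34.BK.BaseG
import Pool.Agent.H73.KP.Glob
import Pool.Agent.H73.KP.Rot
import Pool.Agent.H73.KP.L1
import Pool.Agent.H73.KP.Off2
import Pool.Agent.H73.KP.Seg
import Pool.Agent.H73.KP.Bin
import Pool.Agent.H73.KP.MvP
import Pool.Agent.H73.KP.Gap2

/-!
# The block systems with the Poisson law: the counting function, and the law
-/

set_option autoImplicit false

open MeasureTheory Filter Topology Set

namespace Pool.Agent.H34.BK.P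

open Pool.Agent.H49.BP (pc lt_pc)
open Pool.Agent.H73.TR (rot)
open Pool.Agent.H73.KT (Mb Slow Mb_zero Mb_succ Mb_mono le_Mb exists_index pos)
open Pool.Agent.H49.BZ (Dens md MM MM_le MM_nonneg le_MM_inc dens nd Windows)
open Pool.Agent.H73.KZ (tb ln Blocks Enum pc_block exists_block tb_ge tb_one_le tb_mono MM_tb MM_block)
open Pool.Agent.H73.KP

/-- the counting function of the block system differs from the mass by `o(h / log)` -/
theorem base_count2 [Dens] {h : ℝ → ℝ} (hlim : Tendsto (fun x => h x / Real.log x) atTop atTop) : ∃ V : ℕ → ℕ,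
    ∀ (a : ℕ → ℕ) (S : ℕ → Finset ℝ) (q : ℕ → ℝ),
    (Slow a ∧ (∀ b, a b ≠ 0 → V (a b) ≤ b) ∧ Blocks a S ∧ Enum a S q) →
    ∀ ε : ℝ, 0 < ε → ∀ᶠ x in atTop, |MM x - pc q x| * Real.log x ≤ ε * h x := by
  have h1 : ∀ k : ℕ, ∃ V : ℕ, ∀ y : ℝ, (V : ℝ) ≤ y → ((k : ℝ) + 1) ^ 2 ≤ h y / Real.log y ∧ 1 < y := by
    intro k
    obtain ⟨B, hB⟩ := eventually_atTop.1 ((hlim.eventually (eventually_ge_atTop (((k : ℝ) + 1) ^ 2))).and
      (eventually_gt_atTop 1))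
    obtain ⟨V, hV⟩ := exists_nat_ge B
    exact ⟨V, fun y hy => hB y (by linarith)⟩
  choose V hV using h1
  refine ⟨V, fun a S q ⟨ha, haV, hS, hq⟩ ε hε => ?_⟩
  obtain ⟨K, hK⟩ := exists_nat_gt (1 / ε)
  obtain ⟨J0, hJ0⟩ := eventually_atTop.1 (ha.2.1.eventually (eventually_ge_atTop (K + 1)))
  filter_upwards [eventually_ge_atTop (tb a J0), eventually_ge_atTop 1] with x hx hx1
  obtain ⟨J, hJ1, hJ2⟩ := exists_block (a := a) hx1
  have hJJ : J0 ≤ J := by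
    have h3 : tb a J0 < tb a (J + 1) := lt_of_le_of_lt hx hJ2
    have := tb_mono.lt_iff_lt.1 h3
    omega
  have haK : K + 1 ≤ a J := hJ0 J hJJ
  have haK' : (K : ℝ) + 1 ≤ a J := by exact_mod_cast haK
  have hVx : (V (a J) : ℝ) ≤ x := by
    have h3 : (V (a J) : ℝ) ≤ J := by exact_mod_cast haV J (by omega)
    have h4 := tb_ge (a := a) J
    linarith
  obtain ⟨h3, h4⟩ := hV (a J) x hVx
  have hl := Real.log_pos h4
  rw [le_div_iff₀ hl] at h3
  obtain ⟨h5, h6⟩ := pc_block hS hq hJ1 hJ2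
  have h5' : (Mb a J : ℝ) ≤ pc q x := by exact_mod_cast h5
  have h6' : (pc q x : ℝ) ≤ Mb a J + (a J + 1) := by exact_mod_cast h6
  have h7 := MM_le (tb_one_le (a := a) J) hJ1
  have h8 := MM_le hx1 hJ2.le
  have h9 := MM_block (a := a) J
  simp only [MM_tb] at h7 h8 h9
  have h10 : |MM x - pc q x| ≤ (a J : ℝ) + 1 := by
    rw [abs_le]
    constructor <;> linarith
  have h11 : 1 ≤ ε * ((a J : ℝ) + 1) := by
    rw [div_lt_iff₀ hε] at hK
    nlinarith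
  calc |MM x - pc q x| * Real.log x ≤ ((a J : ℝ) + 1) * Real.log x := mul_le_mul_of_nonneg_right h10 hl.le
    _ = 1 * (((a J : ℝ) + 1) * Real.log x) := by ring
    _ ≤ (ε * ((a J : ℝ) + 1)) * (((a J : ℝ) + 1) * Real.log x) :=
        mul_le_mul_of_nonneg_right h11 (by positivity)
    _ = ε * (((a J : ℝ) + 1) ^ 2 * Real.log x) := by ring
    _ ≤ ε * h x := mul_le_mul_of_nonneg_left h3 hε.le

/-- the Poisson law for the block systems -/
theorem base_poisson {γ : ℕ → ℝ} (h0 : ∀ k, 0 < γ k) (hm : Monotone γ) (hW : Windows γ) {a : ℕ → ℕ} {S : ℕ → Finset ℝ}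
    {q : ℕ → ℝ} {D : ℕ → Finset ℕ} {v : ℕ → ℝ} (ha : Slow a) (hS : @Blocks (dens γ h0) a S) (hq : Enum a S q)
    (hv : ∀ b, v b ∈ Ioc (0 : ℝ) 1)
    (hY : ∀ b, D b = ∅ → 1 ≤ a b → Nm (ms (a b)) = a b + 1 ∧ S b = ((Ym (ms (a b))).image fun y =>
        y * ((@tb (dens γ h0) a (b + 1) - @tb (dens γ h0) a b) / Nm (ms (a b)))).image
          fun c => rot (@tb (dens γ h0) a b) (@tb (dens γ h0) a (b + 1)) c
            (pos (@tb (dens γ h0) a b) (@tb (dens γ h0) a (b + 1)) (v b)))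
    (hbad : ∀ η : ℝ, 0 < η → ∀ᶠ J : ℕ in atTop,
        ∑ b ∈ (Finset.range J).filter (fun b => D b ≠ ∅), ((a b : ℝ) + 1) ≤ η * Mb a J)
    {l : ℝ} (hl : 0 < l) (k : ℕ) :
    Tendsto (fun X : ℝ => volume.real {x : ℝ | 2 ≤ x ∧ x ≤ X ∧ cw q x (l * Real.log x) ≤ k} / X) atTop (𝓝 (Q k l)) := by
  let _ : Dens := dens γ h0
  have _ : Pool.Agent.H73.KZ.DV := Pool.Agent.H49.BZ.dens_DV h0
  exact glob (fun ε hε => nd_lim1 h0 hm hW hε) ha hS hq hv hY hbad ms_top k (Q_cont k)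
    (fun l hl η hη => rot_vol_of k hl (fun η hη => seg_vol k hl hη) hη) hl

/-- moving few points does not change the law -/
theorem moved_law {q q' : ℕ → ℝ} (hq : StrictMono q) (hg : ∀ n : ℕ, (n : ℝ) + 1 ≤ q n) (hq' : StrictMono q')
    (hg' : ∀ n : ℕ, (n : ℝ) + 1 ≤ q' n) (hm : Pool.Agent.H73.KT.Moved q q')
    (h : ∀ l : ℝ, 0 < l → ∀ k : ℕ,
      Tendsto (fun X : ℝ => volume.real {x : ℝ | 2 ≤ x ∧ x ≤ X ∧ cw q x (l * Real.log x) ≤ k} / X) atTop (𝓝 (Q k l)))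
    {l : ℝ} (hl : 0 < l) (k : ℕ) :
    Tendsto (fun X : ℝ => volume.real {x : ℝ | 2 ≤ x ∧ x ≤ X ∧ cw q' x (l * Real.log x) = k} / X) atTop
      (𝓝 (Real.exp (-l) * l ^ k / (k.factorial : ℝ))) :=
  single hq' hg' hl (fun k => moved_poisson hq hg hm hl k (h l hl k)) k

end Pool.Agent.H34.BK.P
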