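import Pool.Agent.H73.KP.MvP
import Pool.Agent.H73.KP.Bin

/-!
# From the Poisson law and the prime number theorem to the prime number theorem in the mean in short intervals
-/

set_option autoImplicit false

open MeasureTheory Filter Topology Set

namespace Pool.Agent.H34.BK.P

open Pool.Agent.H49.BP (pc pc_mono)
open Pool.Agent.H73.KP (cw Q cw_eqM cw_measM)

section
variable {F : ℝ → ℝ}

theorem shift_mono (hF : Monotone F) (c : ℝ) : Monotone fun x => F (x + c) := fun x y h => hF (by linarith)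

theorem int_shift (hF : Monotone F) {A B μ : ℝ} (hμ : 0 ≤ μ) :
    ∫ x in A..B, (F (x + μ) - F x) ≤ μ * (F (B + μ) - F A) := by
  have hi : ∀ a b : ℝ, IntervalIntegrable F volume a b := fun a b => hF.intervalIntegrable
  have h1 : IntervalIntegrable (fun x => F (x + μ)) volume A B := (shift_mono hF μ).intervalIntegrable
  rw [intervalIntegral.integral_sub h1 (hi A B), intervalIntegral.integral_comp_add_right]
  have e1 := intervalIntegral.integral_add_adjacent_intervals (hi A (A + μ)) (hi (A + μ) (B + μ))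
  have e2 := intervalIntegral.integral_add_adjacent_intervals (hi A B) (hi B (B + μ))
  have h3 : ∫ x in B..(B + μ), F x ≤ μ * F (B + μ) := by
    have h := intervalIntegral.integral_mono_on (show B ≤ B + μ by linarith) (hi B (B + μ))
      (intervalIntegrable_const (c := F (B + μ))) (fun x hx => hF hx.2)
    rw [intervalIntegral.integral_const, smul_eq_mul] at h
    linarith
  have h4 : μ * F A ≤ ∫ x in A..(A + μ), F x := by
    have h := intervalIntegral.integral_mono_on (show A ≤ A + μ by linarith)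
      (intervalIntegrable_const (c := F A)) (hi A (A + μ)) (fun x hx => hF hx.1)
    rw [intervalIntegral.integral_const, smul_eq_mul] at h
    linarith
  linarith

theorem chain (hF : Monotone F) {μ l H T : ℝ} (K : ℕ) (h1 : K * μ ≤ H) (h2 : H ≤ (K + 1) * μ)
    (h3 : K * l ≤ T) (h4 : T ≤ (K + 1) * l) (x : ℝ) :
    |F (x + H) - F x - T| ≤ ∑ j ∈ Finset.range (K + 1), |F (x + j * μ + μ) - F (x + j * μ) - l| + l := by
  have e : ∀ n : ℕ, ∑ j ∈ Finset.range n, (F (x + j * μ + μ) - F (x + j * μ)) = F (x + n * μ) - F x := by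
    intro n
    have h := Finset.sum_range_sub (fun j : ℕ => F (x + j * μ)) n
    rw [Nat.cast_zero, zero_mul, add_zero] at h
    rw [← h]
    refine Finset.sum_congr rfl fun j _ => ?_
    congr 2
    push_cast
    ring
  have s : ∀ n : ℕ, |F (x + n * μ) - F x - n * l| ≤ ∑ j ∈ Finset.range n, |F (x + j * μ + μ) - F (x + j * μ) - l| := by
    intro n
    have h := Finset.abs_sum_le_sum_abs (fun j : ℕ => F (x + j * μ + μ) - F (x + j * μ) - l) (Finset.range n)
    rw [Finset.sum_sub_distrib, e, Finset.sum_const, Finset.card_range, nsmul_eq_mul] at h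
    exact h
  have s1 := s K
  have s2 := s (K + 1)
  rw [Finset.sum_range_succ] at s2 ⊢
  have hK : 0 ≤ |F (x + K * μ + μ) - F (x + K * μ) - l| := abs_nonneg _
  rw [abs_le] at s1 s2
  push_cast at s2
  have h5 := hF (show x + K * μ ≤ x + H by linarith)
  have h6 := hF (show x + H ≤ x + (K + 1) * μ by linarith)
  rw [abs_le]
  constructor <;> nlinarith [s1.1, s1.2, s2.1, s2.2]

theorem abs_int (hF : Monotone F) (μ l A B : ℝ) :
    IntervalIntegrable (fun x => |F (x + μ) - F x - l|) volume A B :=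
  (((shift_mono hF μ).intervalIntegrable.sub hF.intervalIntegrable).sub intervalIntegrable_const).abs

theorem mean_chain (hF : Monotone F) {μ l H T X : ℝ} (hμ : 0 ≤ μ) (hX : 0 ≤ X) (K : ℕ) (h1 : K * μ ≤ H)
    (h2 : H ≤ (K + 1) * μ) (h3 : K * l ≤ T) (h4 : T ≤ (K + 1) * l) (hHX : H ≤ X) :
    ∫ x in X..(2 * X), |F (x + H) - F x - T| ≤
      (K + 1) * (∫ x in X..(3 * X), |F (x + μ) - F x - l|) + l * X := by
  have hint : ∀ j : ℕ, IntervalIntegrable (fun x => |F (x + j * μ + μ) - F (x + j * μ) - l|) volume X (2 * X) := by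
    intro j
    have h := abs_int (shift_mono hF (j * μ)) μ l X (2 * X)
    refine h.congr fun x _ => ?_
    rw [show x + μ + j * μ = x + j * μ + μ by ring]
  have hsum : IntervalIntegrable (fun x => ∑ j ∈ Finset.range (K + 1), |F (x + j * μ + μ) - F (x + j * μ) - l|)
      volume X (2 * X) := by
    have h := IntervalIntegrable.sum (Finset.range (K + 1)) fun j _ => hint j
    rwa [Finset.sum_fn] at h
  have h5 : ∫ x in X..(2 * X), |F (x + H) - F x - T| ≤
      ∫ x in X..(2 * X), (∑ j ∈ Finset.range (K + 1), |F (x + j * μ + μ) - F (x + j * μ) - l| + l) := by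
    refine intervalIntegral.integral_mono_on (by linarith) (abs_int hF H T _ _) ?_ fun x _ => chain hF K h1 h2 h3 h4 x
    exact hsum.add intervalIntegrable_const
  refine h5.trans ?_
  rw [intervalIntegral.integral_add hsum intervalIntegrable_const,
    intervalIntegral.integral_finsetSum fun j _ => hint j, intervalIntegral.integral_const, smul_eq_mul]
  have h6 : ∀ j ∈ Finset.range (K + 1), ∫ x in X..(2 * X), |F (x + j * μ + μ) - F (x + j * μ) - l| ≤
      ∫ x in X..(3 * X), |F (x + μ) - F x - l| := by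
    intro j hj
    have hj' : (j : ℝ) ≤ K := by exact_mod_cast Nat.lt_succ_iff.1 (Finset.mem_range.1 hj)
    have h7 : (j : ℝ) * μ ≤ X := (mul_le_mul_of_nonneg_right hj' hμ).trans (h1.trans hHX)
    have h8 : 0 ≤ (j : ℝ) * μ := by positivity
    rw [intervalIntegral.integral_comp_add_right (fun x => |F (x + μ) - F x - l|)]
    refine intervalIntegral.integral_mono_interval (by linarith) (by linarith) (by linarith) ?_ (abs_int hF μ l _ _)
    exact Filter.Eventually.of_forall fun x => abs_nonneg _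
  have h9 := Finset.sum_le_sum h6
  rw [Finset.sum_const, Finset.card_range, nsmul_eq_mul] at h9
  push_cast at h9
  linarith

end

/-- the lower tail of the Poisson law -/
theorem Q_tail (k : ℕ) {s t : ℝ} (hs : 0 ≤ s) (ht0 : 0 < t) (ht1 : t < 1) :
    Q k s ≤ Real.exp (k * (t / (1 - t)) - t * s) := by
  have hr : 0 < 1 - t := by linarith
  have hr1 : 1 - t ≤ 1 := by linarith
  have h1 : Q k s * (1 - t) ^ k ≤ Real.exp (-(t * s)) := by
    unfold Q
    rw [Finset.sum_mul]
    have h2 : ∀ j ∈ Finset.range (k + 1), Real.exp (-s) * s ^ j / (j.factorial : ℝ) * (1 - t) ^ k ≤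
        Real.exp (-s) * (((1 - t) * s) ^ j / (j.factorial : ℝ)) := by
      intro j hj
      have hjk : j ≤ k := Nat.lt_succ_iff.1 (Finset.mem_range.1 hj)
      have h3 : (1 - t) ^ k ≤ (1 - t) ^ j := pow_le_pow_of_le_one hr.le hr1 hjk
      have h4 : 0 ≤ Real.exp (-s) * s ^ j / (j.factorial : ℝ) := by positivity
      have h5 := mul_le_mul_of_nonneg_left h3 h4
      have e : Real.exp (-s) * (((1 - t) * s) ^ j / (j.factorial : ℝ)) =
          Real.exp (-s) * s ^ j / (j.factorial : ℝ) * (1 - t) ^ j := by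
        rw [mul_pow]
        ring
      rw [e]
      exact h5
    refine (Finset.sum_le_sum h2).trans ?_
    rw [← Finset.mul_sum]
    have h3 := Real.sum_le_exp_of_nonneg (show 0 ≤ (1 - t) * s by positivity) (k + 1)
    have h4 := mul_le_mul_of_nonneg_left h3 (Real.exp_pos (-s)).le
    rw [← Real.exp_add] at h4
    have e : -s + (1 - t) * s = -(t * s) := by ring
    rwa [e] at h4
  have h6 : 1 ≤ Real.exp (t / (1 - t)) * (1 - t) := by
    have h7 := Real.add_one_le_exp (t / (1 - t))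
    have h8 := mul_le_mul_of_nonneg_right h7 hr.le
    have e : (t / (1 - t) + 1) * (1 - t) = 1 := by field_simp; ring
    rwa [e] at h8
  have h9 : 1 ≤ Real.exp (k * (t / (1 - t))) * (1 - t) ^ k := by
    rw [Real.exp_nat_mul, ← mul_pow]
    exact one_le_pow₀ h6
  have hQ : 0 ≤ Q k s := by
    unfold Q
    exact Finset.sum_nonneg fun j _ => by positivity
  calc Q k s = Q k s * 1 := (mul_one _).symm
    _ ≤ Q k s * (Real.exp (k * (t / (1 - t))) * (1 - t) ^ k) := mul_le_mul_of_nonneg_left h9 hQ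
    _ = Real.exp (k * (t / (1 - t))) * (Q k s * (1 - t) ^ k) := by ring
    _ ≤ Real.exp (k * (t / (1 - t))) * Real.exp (-(t * s)) := mul_le_mul_of_nonneg_left h1 (Real.exp_pos _).le
    _ = Real.exp (k * (t / (1 - t)) - t * s) := by rw [← Real.exp_add]; congr 1

/-- from the distribution to the mean: `N = F (x + μ) - F x` takes natural values, is rarely at most `k₀`, and has the right mean -/
theorem mean_of_tail {F : ℝ → ℝ} (hF : Monotone F) {μ l η X : ℝ} (hμ : 0 ≤ μ) (hl : 0 ≤ l) (hη : 0 ≤ η) (hX : 0 ≤ X)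
    {k : ℕ} (hk : (1 - η) * l ≤ k + 1) (hN : ∀ x, (F (x + μ) - F x ≤ k) ∨ (k : ℝ) + 1 ≤ F (x + μ) - F x)
    (hN0 : ∀ x, 0 ≤ F (x + μ) - F x)
    (hS : volume.real {x : ℝ | (X ≤ x ∧ x ≤ 3 * X) ∧ F (x + μ) - F x ≤ k} ≤ 6 * η * X)
    (hM : μ * (F (3 * X + μ) - F X) ≤ (2 + η) * (l * X)) :
    ∫ x in X..(3 * X), |F (x + μ) - F x - l| ≤ 17 * (η * (l * X)) := by
  set S : Set ℝ := {x : ℝ | (X ≤ x ∧ x ≤ 3 * X) ∧ F (x + μ) - F x ≤ k} with hSdef
  have hSm : MeasurableSet S := by
    refine MeasurableSet.inter measurableSet_Icc ?_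
    exact measurableSet_le ((shift_mono hF μ).measurable.sub hF.measurable) measurable_const
  have hi : IntervalIntegrable (fun x => F (x + μ) - F x) volume X (3 * X) :=
    (shift_mono hF μ).intervalIntegrable.sub hF.intervalIntegrable
  have hSfin : volume (S ∩ Ioc X (3 * X)) ≠ ⊤ :=
    ((measure_mono inter_subset_right).trans_lt measure_Ioc_lt_top).ne
  have hind : IntervalIntegrable (S.indicator fun _ => l) volume X (3 * X) := by
    rw [intervalIntegrable_iff_integrableOn_Ioc_of_le (by linarith)]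
    exact (integrableOn_const (by rw [Real.volume_Ioc]; exact ENNReal.ofReal_ne_top)).indicator hSm
  have h1 : ∫ x in X..(3 * X), |F (x + μ) - F x - l| ≤
      ∫ x in X..(3 * X), ((F (x + μ) - F x - l) + 2 * (η * l + S.indicator (fun _ => l) x)) := by
    refine intervalIntegral.integral_mono_on (by linarith) (abs_int hF μ l _ _)
      ((hi.sub intervalIntegrable_const).add ((intervalIntegrable_const.add hind).const_mul 2)) fun x hx => ?_
    have h0 := hN0 x
    have hηl : 0 ≤ η * l := mul_nonneg hη hl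
    by_cases hxS : F (x + μ) - F x ≤ k
    · rw [indicator_of_mem (show x ∈ S from ⟨⟨hx.1, hx.2⟩, hxS⟩), abs_le]
      constructor <;> linarith
    · rw [indicator_of_notMem (fun h : x ∈ S => hxS h.2)]
      have h2 := (hN x).resolve_left hxS
      rw [abs_le]
      constructor <;> linarith
  refine h1.trans ?_
  rw [intervalIntegral.integral_add (hi.sub intervalIntegrable_const) ((intervalIntegrable_const.add hind).const_mul 2),
    intervalIntegral.integral_sub hi intervalIntegrable_const, intervalIntegral.integral_const_mul,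
    intervalIntegral.integral_add intervalIntegrable_const hind, intervalIntegral.integral_const,
    intervalIntegral.integral_const, smul_eq_mul, smul_eq_mul]
  have h2 := int_shift hF (A := X) (B := 3 * X) hμ
  have h3 : ∫ x in X..(3 * X), S.indicator (fun _ => l) x ≤ l * (6 * η * X) := by
    rw [intervalIntegral.integral_of_le (by linarith), integral_indicator hSm, setIntegral_const, smul_eq_mul, mul_comm,
      measureReal_restrict_apply hSm]
    refine mul_le_mul_of_nonneg_left (le_trans ?_ hS) hl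
    refine measureReal_mono inter_subset_left ?_
    exact ((measure_mono (fun x hx => (show x ∈ Icc X (3 * X) from ⟨hx.1.1, hx.1.2⟩))).trans_lt measure_Icc_lt_top).ne
  have hηlX : 0 ≤ η * (l * X) := by positivity
  nlinarith

/-- the error terms -/
theorem small_terms {l C η : ℝ} (hl : 0 ≤ l) (hC : 0 ≤ C) (hη : 0 < η) :
    ∀ᶠ X : ℝ in atTop, l * Real.log X + 2 * C * Real.log X * (4 * X) ^ (3 / 4 : ℝ) ≤ η * X := by
  have h1 := (isLittleO_log_rpow_atTop (show (0 : ℝ) < 1 / 8 by norm_num)).bound (c := 1) one_pos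
  filter_upwards [h1, eventually_ge_atTop 1,
    (tendsto_rpow_atTop (show (0 : ℝ) < 1 / 8 by norm_num)).eventually (eventually_ge_atTop ((l + 8 * C) / η))] with
    X h2 hX h3
  have hX0 : 0 < X := by linarith
  have hlog : 0 ≤ Real.log X := Real.log_nonneg hX
  have h8 : 0 ≤ X ^ (1 / 8 : ℝ) := Real.rpow_nonneg hX0.le _
  rw [one_mul, Real.norm_eq_abs, Real.norm_eq_abs, abs_of_nonneg hlog, abs_of_nonneg h8] at h2
  have h4 : (4 * X) ^ (3 / 4 : ℝ) ≤ 4 * X ^ (3 / 4 : ℝ) := by
    rw [Real.mul_rpow (by norm_num) hX0.le]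
    refine mul_le_mul_of_nonneg_right ?_ (Real.rpow_nonneg hX0.le _)
    calc (4 : ℝ) ^ (3 / 4 : ℝ) ≤ 4 ^ (1 : ℝ) := Real.rpow_le_rpow_of_exponent_le (by norm_num) (by norm_num)
      _ = 4 := Real.rpow_one 4
  have h5 : 1 ≤ X ^ (3 / 4 : ℝ) := Real.one_le_rpow hX (by norm_num)
  have h6 : X ^ (1 / 8 : ℝ) * X ^ (3 / 4 : ℝ) * X ^ (1 / 8 : ℝ) = X := by
    rw [← Real.rpow_add hX0, ← Real.rpow_add hX0]
    norm_num
  rw [div_le_iff₀ hη] at h3
  have h7 : l * Real.log X ≤ l * (X ^ (1 / 8 : ℝ) * X ^ (3 / 4 : ℝ)) := by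
    refine mul_le_mul_of_nonneg_left (h2.trans ?_) hl
    nlinarith
  have h9 : 2 * C * Real.log X * (4 * X) ^ (3 / 4 : ℝ) ≤ 8 * C * (X ^ (1 / 8 : ℝ) * X ^ (3 / 4 : ℝ)) := by
    calc 2 * C * Real.log X * (4 * X) ^ (3 / 4 : ℝ) ≤ 2 * C * X ^ (1 / 8 : ℝ) * (4 * X ^ (3 / 4 : ℝ)) := by
          refine mul_le_mul ?_ h4 (Real.rpow_nonneg (by linarith) _) (by positivity)
          exact mul_le_mul_of_nonneg_left h2 (by positivity)
      _ = _ := by ring
  have h10 : 0 ≤ X ^ (1 / 8 : ℝ) * X ^ (3 / 4 : ℝ) := by positivity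
  calc _ ≤ (l + 8 * C) * (X ^ (1 / 8 : ℝ) * X ^ (3 / 4 : ℝ)) := by linarith
    _ ≤ (X ^ (1 / 8 : ℝ) * η) * (X ^ (1 / 8 : ℝ) * X ^ (3 / 4 : ℝ)) := mul_le_mul_of_nonneg_right h3 h10
    _ = η * (X ^ (1 / 8 : ℝ) * X ^ (3 / 4 : ℝ) * X ^ (1 / 8 : ℝ)) := by ring
    _ = η * X := by rw [h6]

/-- the number of the points in `(X, B]` -/
theorem pnt_upper {q : ℕ → ℝ} {C : ℝ} (hC : ∀ x : ℝ, 2 ≤ x →
    |(pc q x : ℝ) - ∫ u in (2 : ℝ)..x, (Real.log u)⁻¹| ≤ C * x ^ (3 / 4 : ℝ)) {X B : ℝ} (hX : 2 ≤ X) (hXB : X ≤ B)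
    (hB : B ≤ 4 * X) (hC0 : 0 ≤ C) :
    ((pc q B : ℝ) - pc q X) * Real.log X ≤ (B - X) + 2 * C * Real.log X * (4 * X) ^ (3 / 4 : ℝ) := by
  have h1 := hC X hX
  have h2 := hC B (by linarith)
  have hlog : 0 < Real.log X := Real.log_pos (by linarith)
  have hint : ∀ a b : ℝ, 2 ≤ a → 2 ≤ b → IntervalIntegrable (fun u : ℝ => (Real.log u)⁻¹) volume a b := by
    intro a b ha hb
    refine ContinuousOn.intervalIntegrable fun u hu => ?_
    have hu2 : 2 ≤ u := by
      rcases Set.mem_uIcc.1 hu with h | h <;> linarith [h.1]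
    exact ((Real.continuousAt_log (by linarith)).inv₀ (Real.log_pos (by linarith)).ne').continuousWithinAt
  have h3 := intervalIntegral.integral_add_adjacent_intervals (hint 2 X le_rfl hX) (hint X B hX (by linarith))
  have h4 : ∫ u in X..B, (Real.log u)⁻¹ ≤ (B - X) * (Real.log X)⁻¹ := by
    have h := intervalIntegral.integral_mono_on hXB (hint X B hX (by linarith))
      (intervalIntegrable_const (c := (Real.log X)⁻¹)) (fun u hu => by
        exact inv_anti₀ hlog (Real.log_le_log (by linarith) hu.1))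
    rwa [intervalIntegral.integral_const, smul_eq_mul] at h
  have h5 : X ^ (3 / 4 : ℝ) ≤ (4 * X) ^ (3 / 4 : ℝ) := Real.rpow_le_rpow (by linarith) (by linarith) (by norm_num)
  have h6 : B ^ (3 / 4 : ℝ) ≤ (4 * X) ^ (3 / 4 : ℝ) := Real.rpow_le_rpow (by linarith) hB (by norm_num)
  have h7 := mul_le_mul_of_nonneg_left h5 hC0
  have h8 := mul_le_mul_of_nonneg_left h6 hC0
  rw [abs_le] at h1 h2
  have h9 : (pc q B : ℝ) - pc q X ≤ (B - X) * (Real.log X)⁻¹ + 2 * (C * (4 * X) ^ (3 / 4 : ℝ)) := by linarith [h1.1, h2.2]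
  calc ((pc q B : ℝ) - pc q X) * Real.log X ≤
      ((B - X) * (Real.log X)⁻¹ + 2 * (C * (4 * X) ^ (3 / 4 : ℝ))) * Real.log X := mul_le_mul_of_nonneg_right h9 hlog.le
    _ = (B - X) * ((Real.log X)⁻¹ * Real.log X) + 2 * C * Real.log X * (4 * X) ^ (3 / 4 : ℝ) := by ring
    _ = _ := by rw [inv_mul_cancel₀ hlog.ne', mul_one]

/-- **the prime number theorem in the mean** in intervals of length `H`, `H / log X` large -/
theorem mean_law {q : ℕ → ℝ} (hq : StrictMono q) (hg : ∀ n : ℕ, (n : ℝ) + 1 ≤ q n)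
    (hP : ∃ C : ℝ, ∀ x : ℝ, 2 ≤ x → |(pc q x : ℝ) - ∫ u in (2 : ℝ)..x, (Real.log u)⁻¹| ≤ C * x ^ (3 / 4 : ℝ))
    (hL : ∀ l : ℝ, 0 < l → ∀ k : ℕ,
      Tendsto (fun X : ℝ => volume.real {x : ℝ | 2 ≤ x ∧ x ≤ X ∧ cw q x (l * Real.log x) ≤ k} / X) atTop (𝓝 (Q k l)))
    {ε : ℝ} (hε : 0 < ε) : ∃ lam : ℝ, 0 < lam ∧ ∀ᶠ X : ℝ in atTop, ∀ H : ℝ, lam * Real.log X ≤ H → H ≤ X →
      ∫ x in X..(2 * X), |(cw q x H : ℝ) - H / Real.log X| ≤ ε * X * (H / Real.log X) := by
  obtain ⟨C0, hC0⟩ := hP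
  set C := max C0 0 with hCdef
  have hC0' : 0 ≤ C := le_max_right _ _
  have hC : ∀ x : ℝ, 2 ≤ x → |(pc q x : ℝ) - ∫ u in (2 : ℝ)..x, (Real.log u)⁻¹| ≤ C * x ^ (3 / 4 : ℝ) := fun x hx =>
    (hC0 x hx).trans (mul_le_mul_of_nonneg_right (le_max_left _ _) (Real.rpow_nonneg (by linarith) _))
  set η : ℝ := min (ε / 40) (1 / 4) with hηdef
  have hη : 0 < η := lt_min (by positivity) (by norm_num)
  have hη4 : η ≤ 1 / 4 := min_le_right _ _
  have hηε : η ≤ ε / 40 := min_le_left _ _
  set t : ℝ := η / 2 with htdef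
  have ht : 0 < t := by positivity
  obtain ⟨l, hl2, hle⟩ : ∃ l : ℝ, 2 ≤ l ∧ Real.exp (t - t ^ 2 * l) ≤ η := by
    refine ⟨max 2 ((t - Real.log η) / t ^ 2), le_max_left _ _, ?_⟩
    have h1 := le_max_right 2 ((t - Real.log η) / t ^ 2)
    rw [div_le_iff₀ (by positivity)] at h1
    rw [← Real.le_log_iff_exp_le hη]
    linarith
  have hl0 : 0 < l := by linarith
  set s : ℝ := l - 1 with hsdef
  have hs : 0 < s := by linarith
  set k : ℕ := ⌊(1 - η) * l⌋₊ with hkdef
  have hk1 : (k : ℝ) ≤ (1 - η) * l := Nat.floor_le (mul_nonneg (by linarith) hl0.le)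
  have hk2 : (1 - η) * l ≤ k + 1 := (Nat.lt_floor_add_one _).le
  have hQ : Q k s ≤ η := by
    refine (Q_tail k hs.le ht (by linarith)).trans (le_trans (Real.exp_le_exp.2 ?_) hle)
    have h1 : 0 < 1 - t := by linarith
    have h2 : (k : ℝ) * (t / (1 - t)) ≤ t * (1 - t) * l := by
      rw [← mul_div_assoc, div_le_iff₀ h1]
      have h3 : (k : ℝ) * t ≤ (1 - 2 * t) * l * t := by
        refine mul_le_mul_of_nonneg_right ?_ ht.le
        rwa [show 1 - 2 * t = 1 - η by rw [htdef]; ring]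
      nlinarith [mul_nonneg (mul_nonneg ht.le (sq_nonneg t)) hl0.le]
    nlinarith
  have hev1 := (hL s hs k).eventually (eventually_le_nhds (show Q k s < 2 * η by linarith))
  have hev2 := (tendsto_id.const_mul_atTop (show (0 : ℝ) < 3 by norm_num)).eventually hev1
  refine ⟨l / η, by positivity, ?_⟩
  filter_upwards [hev2, eventually_ge_atTop 3, small_terms hl0.le hC0' hη,
    Real.tendsto_log_atTop.eventually (eventually_ge_atTop (s * Real.log 3)),
    (Real.isLittleO_log_id_atTop.bound (show (0 : ℝ) < 1 / l by positivity))] with X h1 hX3 h2 h3 h4 H hH1 hH2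
  have hX0 : 0 < X := by linarith
  have hlog : 0 < Real.log X := Real.log_pos (by linarith)
  simp only [id] at h1 h4
  rw [Real.norm_eq_abs, Real.norm_eq_abs, abs_of_pos hlog, abs_of_pos hX0, div_mul_eq_mul_div, one_mul,
    le_div_iff₀ hl0] at h4
  rw [div_le_iff₀ (by linarith)] at h1
  set F : ℝ → ℝ := fun x => (pc q x : ℝ) with hFdef
  have hF : Monotone F := fun x y hxy => by
    show (pc q x : ℝ) ≤ pc q y
    exact_mod_cast pc_mono hq hg hxy
  have hcw : ∀ x μ : ℝ, 0 ≤ μ → (cw q x μ : ℝ) = F (x + μ) - F x := by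
    intro x μ hμ
    rw [cw_eqM hq hg, Nat.cast_sub (pc_mono hq hg (by linarith))]
  set μ : ℝ := l * Real.log X with hμdef
  have hμ : 0 < μ := by positivity
  have hμX : μ ≤ X := by linarith
  have hI : ∫ x in X..(3 * X), |F (x + μ) - F x - l| ≤ 17 * (η * (l * X)) := by
    refine mean_of_tail hF hμ.le hl0.le hη.le hX0.le (k := k) hk2 (fun x => ?_) (fun x => ?_) ?_ ?_
    · rw [← hcw x μ hμ.le]
      rcases Nat.lt_or_ge k (cw q x μ) with h | h
      · exact Or.inr (by exact_mod_cast h)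
      · exact Or.inl (by exact_mod_cast h)
    · rw [← hcw x μ hμ.le]
      exact Nat.cast_nonneg _
    · refine (measureReal_mono (s₂ := {x : ℝ | 2 ≤ x ∧ x ≤ 3 * X ∧ cw q x (s * Real.log x) ≤ k}) ?_ ?_).trans
        (h1.trans (by linarith))
      · rintro x ⟨⟨hx1, hx2⟩, hx3⟩
        refine ⟨by linarith, hx2, ?_⟩
        have h5 : s * Real.log x ≤ μ := by
          have h6 : Real.log x ≤ Real.log X + Real.log 3 := by
            rw [← Real.log_mul (by linarith) (by norm_num)]
            exact Real.log_le_log (by linarith) (by linarith)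
          have h7 := mul_le_mul_of_nonneg_left h6 hs.le
          rw [hμdef]
          linarith [show l * Real.log X = s * Real.log X + Real.log X by rw [hsdef]; ring]
        have h8 : 0 ≤ s * Real.log x := mul_nonneg hs.le (Real.log_nonneg (by linarith))
        have h9 : (cw q x (s * Real.log x) : ℝ) ≤ k := by
          rw [hcw x _ h8]
          have := hF (show x + s * Real.log x ≤ x + μ by linarith)
          linarith
        exact_mod_cast h9
      · exact ((measure_mono (fun x hx => (show x ∈ Icc 2 (3 * X) from ⟨hx.1, hx.2.1⟩))).trans_lt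
          measure_Icc_lt_top).ne
    · have h5 := pnt_upper hC (X := X) (B := 3 * X + μ) (by linarith) (by linarith) (by linarith) hC0'
      have h6 : μ * (F (3 * X + μ) - F X) = l * ((F (3 * X + μ) - F X) * Real.log X) := by
        rw [hμdef]
        ring
      rw [h6]
      have h7 := mul_le_mul_of_nonneg_left h5 hl0.le
      refine h7.trans ?_
      have h8 := mul_le_mul_of_nonneg_left h2 hl0.le
      have e : l * (3 * X + μ - X + 2 * C * Real.log X * (4 * X) ^ (3 / 4 : ℝ)) =
          2 * (l * X) + l * (l * Real.log X + 2 * C * Real.log X * (4 * X) ^ (3 / 4 : ℝ)) := by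
        rw [hμdef]
        ring
      rw [e]
      linarith
  set T : ℝ := H / Real.log X with hTdef
  have hH0 : 0 ≤ H := le_trans (by positivity) hH1
  have hT : l / η ≤ T := by
    rw [hTdef, le_div_iff₀ hlog]
    exact hH1
  have hTl : l ≤ η * T := by
    rw [div_le_iff₀ hη] at hT
    linarith
  have hT0 : 0 ≤ T := le_trans (by positivity) hT
  set K : ℕ := ⌊H / μ⌋₊ with hKdef
  have hK1 : (K : ℝ) ≤ H / μ := Nat.floor_le (by positivity)
  have hK2 : H / μ ≤ K + 1 := (Nat.lt_floor_add_one _).le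
  have hTμ : T = l * (H / μ) := by
    rw [hTdef, hμdef]
    field_simp
  have hK1' : (K : ℝ) * μ ≤ H := by rwa [le_div_iff₀ hμ] at hK1
  have hK2' : H ≤ ((K : ℝ) + 1) * μ := by rwa [div_le_iff₀ hμ] at hK2
  have hm := mean_chain hF (l := l) (T := T) hμ.le hX0.le K hK1' hK2'
    (by rw [hTμ]; nlinarith) (by rw [hTμ]; nlinarith) hH2
  have e : ∀ x : ℝ, |(cw q x H : ℝ) - T| = |F (x + H) - F x - T| := fun x => by rw [hcw x H hH0]
  simp only [e]
  refine hm.trans ?_
  have hKl : ((K : ℝ) + 1) * l ≤ 2 * T := by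
    have : (K : ℝ) * l ≤ T := by rw [hTμ]; nlinarith
    nlinarith
  have hTX : 0 ≤ T * X := mul_nonneg hT0 hX0.le
  have hI0 : 0 ≤ η * X := by positivity
  calc ((K : ℝ) + 1) * (∫ x in X..(3 * X), |F (x + μ) - F x - l|) + l * X
      ≤ ((K : ℝ) + 1) * (17 * (η * (l * X))) + l * X := by
        have := mul_le_mul_of_nonneg_left hI (show (0 : ℝ) ≤ (K : ℝ) + 1 by positivity)
        linarith
    _ = 17 * (((K : ℝ) + 1) * l) * (η * X) + l * X := by ring
    _ ≤ 17 * (2 * T) * (η * X) + (η * T) * X := by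
        have h5 := mul_le_mul_of_nonneg_right hKl hI0
        have h6 := mul_le_mul_of_nonneg_right hTl hX0.le
        linarith
    _ = (35 * η) * (T * X) := by ring
    _ ≤ ε * (T * X) := mul_le_mul_of_nonneg_right (by linarith) hTX
    _ = ε * X * T := by ring

end Pool.Agent.H34.BK.P
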