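import Pool.Agent.H34.BK.BaseP
import Pool.Agent.H34.BK.Mean
import Pool.Agent.H73.KP.A2P
import Pool.Agent.H73.KZ.Sys

/-!
# The systems with prescribed zeros, prescribed laws of all constellations, the Poisson law and prescribed threshold

The system of `Pool.Agent.H34.BK.G.sysZ`, on the block systems of `Pool.Agent.H73.KP` (helper73 and others), with the Poisson law.
-/

set_option autoImplicit false

open Filter Topology MeasureTheory Complex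

namespace Pool.Agent.H34.BK.P

open Pool.Agent.H49.BP (gint pc)
open Pool.Agent.H49.BZ (Dens MM dens Windows Disc SmallErr primeCount intCount RHSystem)
open Pool.Agent.H73.KT (tc Laws qh)
open Pool.Agent.H73.KZ (DV HasZeros explicit system_of pc_inc moved_disc)
open Pool.Agent.H34.BK.G
open Pool.Agent.H73.KP (cw base_gaps2)

/-- the system -/
theorem sysP {γ : ℕ → ℝ} (h0 : ∀ k, 0 < γ k) (hm : Monotone γ) (hW : Windows γ) {n : Finset ℕ → ℝ → ℝ}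
    (hn : Laws n) {h : ℝ → ℝ} (hsn : Pool.Agent.H34.BW.SelfNeglecting h)
    (hlim : Tendsto (fun x => h x / Real.log x) atTop atTop)
    (hup : ∃ A : ℝ, ∀ᶠ x in atTop, h x ≤ A * √x * Real.log x) :
    ∃ (q : ℕ → ℝ) (Z : ℂ → ℂ), RHSystem q Z ∧ HasZeros Z γ ∧
      (∀ D : Finset ℕ, 0 ∈ D → 2 ≤ D.card → ∀ ε : ℝ, 0 < ε → ∃ C : ℝ, ∀ x : ℝ, 2 ≤ x →
        |(tc q D x : ℝ) - ∫ u in (2 : ℝ)..x, n D u / Real.log u| ≤ C * x ^ (1 / 2 + ε)) ∧
      (∃ C : ℝ, ∀ x : ℝ, 1 ≤ x → |(primeCount q x : ℝ) - explicit γ x| ≤ C * √x) ∧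
      (∀ δ : ℝ, 0 < δ → (∃ C : ℝ, ∀ x : ℝ, 1 ≤ x → h x ≤ C * x ^ δ) →
        ∃ C : ℝ, ∀ x : ℝ, 1 ≤ x → |(primeCount q x : ℝ) - explicit γ x| ≤ C * x ^ δ) ∧
      (∃ (al be : ℕ → ℝ) (A : ℝ), G.HS (@MM (dens γ h0)) h q al be A) ∧
      (∀ l : ℝ, 0 < l → ∀ k : ℕ,
        Tendsto (fun X : ℝ => volume.real {x : ℝ | 2 ≤ x ∧ x ≤ X ∧ cw q x (l * Real.log x) = k} / X) atTop
          (𝓝 (Real.exp (-l) * l ^ k / (k.factorial : ℝ)))) ∧
      ∀ ε : ℝ, 0 < ε → ∃ lam : ℝ, 0 < lam ∧ ∀ᶠ X : ℝ in atTop, ∀ H : ℝ, lam * Real.log X ≤ H → H ≤ X →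
        ∫ x in X..(2 * X), |(cw q x H : ℝ) - H / Real.log X| ≤ ε * X * (H / Real.log X) := by
  let _ : Dens := dens γ h0
  have _ : DV := Pool.Agent.H49.BZ.dens_DV h0
  obtain ⟨V1, hV1⟩ := base_gaps2 hlim
  obtain ⟨V2, hV2⟩ := base_count2 hlim
  obtain ⟨a, S, q, P, v, hst, hD, hcount, hlaw, hv, hY, hbad⟩ :=
    Pool.Agent.H73.KP.realise2 hn (fun k => max (V1 k) (V2 k))
  obtain ⟨b1, b2, b3⟩ := hst
  have hq := b3.2
  have hgap := hV1 a S q ⟨b1, fun b hb => (le_max_left _ _).trans (b2 b hb), b3⟩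
  obtain ⟨n0, A, hA, hev, hX', hmv, hcount', htr⟩ :=
    G.holes3 hq.1 hq.2.1 (by
      obtain ⟨C, _, hC⟩ := pc_inc hcount
      exact ⟨C, hC⟩) hlim hup hgap
  obtain ⟨al, be, hS⟩ := G.holes_hs hq.1 hq.2.1 (mass_ge h0 hm hW) (mass_le h0 hm hW) hlim hsn hA hev hX' hmv hgap
    (hV2 a S q ⟨b1, fun b hb => (le_max_right _ _).trans (b2 b hb), b3⟩)
  have hg' : ∀ k : ℕ, (k : ℝ) + 1 ≤ qh q h n0 k := fun k => (hq.2.1 k).trans (hmv.2.1 k)
  have hI : SmallErr (qh q h n0) := by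
    obtain ⟨u, w, K, hK, h1, h2, h3, h4, h5⟩ := htr
    refine Pool.Agent.H49.BZ.smallErr_of hmv.1 hg' hcount hK h1 (fun k => (h2 k).1) (fun k => (h2 k).2)
      (fun x _ hx => h3 x fun k hk => hx k ⟨hk.1, hk.2⟩) fun k x hx => ?_
    have h6 := h4 k x hx.1 hx.2
    have h7 : (pc (qh q h n0) x : ℝ) ≤ pc q x := by exact_mod_cast h5 x
    rw [abs_sub_comm, abs_of_nonneg (by linarith)]
    exact h6
  have hcs : ∃ C : ℝ, ∀ x : ℝ, 1 ≤ x → |(primeCount (qh q h n0) x : ℝ) - explicit γ x| ≤ C * √x := by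
    obtain ⟨C, hC⟩ := hcount (1 / 2) (by norm_num)
    obtain ⟨u, w, K, hK, _, _, h3, h4, h5⟩ := htr
    refine ⟨C + K, fun x hx => ?_⟩
    have h6 : |(pc (qh q h n0) x : ℝ) - pc q x| ≤ K * √x := by
      have h7 : 0 ≤ K * √x := mul_nonneg hK (Real.sqrt_nonneg _)
      by_cases h8 : ∃ k, u k ≤ x ∧ x ≤ w k
      · obtain ⟨k, hk1, hk2⟩ := h8
        have h9 := h4 k x hk1 hk2
        have h10 : (pc (qh q h n0) x : ℝ) ≤ pc q x := by exact_mod_cast h5 x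
        rw [abs_sub_comm, abs_of_nonneg (by linarith)]
        exact h9.trans (mul_le_mul_of_nonneg_left (Real.sqrt_le_sqrt hk1) hK)
      · push Not at h8
        have h9 : pc (qh q h n0) x = pc q x := h3 x fun k hk => absurd hk.2 (not_le.2 (h8 k hk.1))
        rw [h9, sub_self, abs_zero]
        exact h7
    have h11 := hC x hx
    rw [← Real.sqrt_eq_rpow] at h11
    have h12 := abs_add_le ((pc (qh q h n0) x : ℝ) - pc q x) ((pc q x : ℝ) - MM x)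
    have e : ((pc (qh q h n0) x : ℝ) - pc q x) + ((pc q x : ℝ) - MM x) =
        (primeCount (qh q h n0) x : ℝ) - explicit γ x := by
      show _ = (pc (qh q h n0) x : ℝ) - MM x
      ring
    rw [e] at h12
    linarith
  have hc : ∀ ε : ℝ, 0 < ε → ∃ C : ℝ, ∀ x : ℝ, 1 ≤ x →
      |(primeCount (qh q h n0) x : ℝ) - explicit γ x| ≤ C * x ^ (1 / 2 + ε) := by
    intro ε hε
    obtain ⟨C, hC⟩ := hcs
    have hC0 : 0 ≤ C := by
      have h1 := hC 1 le_rfl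
      rw [Real.sqrt_one, mul_one] at h1
      exact (abs_nonneg _).trans h1
    refine ⟨C, fun x hx => (hC x hx).trans (mul_le_mul_of_nonneg_left ?_ hC0)⟩
    rw [Real.sqrt_eq_rpow]
    exact Real.rpow_le_rpow_of_exponent_le hx (by linarith)
  obtain ⟨Z, hZ1, hZ2⟩ := system_of h0 hm hW hmv.1 (hq.2.2.1.trans_le (hmv.2.1 0)) hg'
    (moved_disc hq.1 hq.2.1 hmv hD) hI hc
  refine ⟨qh q h n0, Z, hZ1, hZ2, fun D hD0 hD2 => ?_, hcs, fun δ hδ hh => ?_, ⟨al, be, A, hS⟩, fun l hl k =>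
    moved_law hq.1 hq.2.1 hmv.1 hg' hmv (fun l hl k => base_poisson h0 hm hW b1 b3.1 hq hv hY hbad hl k) hl k,
    fun ε hε => mean_law hmv.1 hg' ?_ (fun l hl k =>
      Pool.Agent.H73.KP.moved_poisson hq.1 hq.2.1 hmv hl k (base_poisson h0 hm hW b1 b3.1 hq hv hY hbad hl k)) hε⟩
  · exact Pool.Agent.H73.KT.moved_tuples hq.1 hq.2.1 hmv (hlaw D hD0 hD2)
  · exact hcount' MM 1 (fun x y hx hxy => by
      rw [one_mul]
      exact Pool.Agent.H49.BZ.MM_sub_le hx hxy) δ hδ hh (hcount δ hδ)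
  · obtain ⟨C, hC⟩ := hZ1.2.2.1 (1 / 4) (by norm_num)
    refine ⟨C, fun x hx => ?_⟩
    have h1 := hC x hx
    rw [show (1 / 2 + 1 / 4 : ℝ) = 3 / 4 by norm_num] at h1
    exact h1

end Pool.Agent.H34.BK.P
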