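import Pool.Agent.H34.BW.Exp

/-!
# The threshold of a sequence with holes, for a general main term
-/

set_option autoImplicit false

open MeasureTheory Filter Topology Set

namespace Pool.Agent.H34.BK.G

open Pool.Agent.H49.BP (pc log_pos')
open Pool.Agent.H34.BW

/-- the sequence `q` has sparse holes `[al k, be k)` of length about `h (al k)`, and outside the holes its counting function
differs from the mass by `o(h / log)` -/
structure HS (M h : ℝ → ℝ) (q : ℕ → ℝ) (al be : ℕ → ℝ) (A : ℝ) : Prop where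
  hmo : ∀ a b : ℝ, 1 ≤ a → a ≤ b → M a ≤ M b
  hge : ∀ ε : ℝ, 0 < ε → ∀ᶠ x in atTop, ∀ H : ℝ, 0 ≤ H → H ≤ x → (1 - ε) * H ≤ (M (x + H) - M x) * Real.log x
  hle : ∀ ε : ℝ, 0 < ε → ∀ᶠ x in atTop, ∀ H : ℝ, 0 ≤ H → H ≤ x → (M (x + H) - M x) * Real.log x ≤ (1 + ε) * H
  hq : StrictMono q
  hg : ∀ n : ℕ, (n : ℝ) + 1 ≤ q n
  hA : 0 ≤ A
  hlim : Tendsto (fun x => h x / Real.log x) atTop atTop
  hup : ∀ᶠ x in atTop, h x ≤ A * √x * Real.log x
  hsn : SelfNeglecting h
  hal : Tendsto al atTop atTop
  albe : ∀ k, al k < be k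
  hord : ∀ j k, j < k → be j < al k
  hsep : ∀ᶠ k in atTop, 2 * be k < al (k + 1)
  hlen : ∀ ε : ℝ, 0 < ε → ∀ᶠ k in atTop, al k + h (al k) < be k ∧ be k - al k ≤ (1 + ε) * h (al k)
  low : ∀ ε : ℝ, 0 < ε → ∀ᶠ x in atTop, -(ε * h x) ≤ (M x - pc q x) * Real.log x
  out : ∀ ε : ℝ, 0 < ε → ∀ᶠ x in atTop, (∀ k, al k ≤ x → be k ≤ x) →
    (M x - pc q x) * Real.log x ≤ ε * h x
  ins : ∀ ε : ℝ, 0 < ε → ∀ᶠ k in atTop, ∀ x, al k ≤ x → x < be k →
    (M x - pc q x) * Real.log (al k) ≤ (x - al k) + ε * h (al k)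
  emp : ∀ᶠ k in atTop, ∀ x, al k ≤ x → x ≤ al k + h (al k) → pc q x = pc q (al k)

namespace HS

variable {M h : ℝ → ℝ} {q : ℕ → ℝ} {al be : ℕ → ℝ} {A : ℝ} (S : HS M h q al be A)
include S

theorem log_small {ε : ℝ} (hε : 0 < ε) : ∀ᶠ x in atTop, Real.log x ≤ ε * h x := by
  filter_upwards [S.hlim.eventually (eventually_ge_atTop (1 / ε)), eventually_gt_atTop 1] with x h1 h2
  have hl := log_pos' h2
  rw [div_le_div_iff₀ hε hl] at h1
  linarith

theorem htop : Tendsto h atTop atTop := by
  refine tendsto_atTop_mono' (f₁ := fun x => Real.log x) (f₂ := h) _ ?_ Real.tendsto_log_atTop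
  filter_upwards [S.log_small one_pos] with x h1
  linarith

theorem h_small {ε : ℝ} (hε : 0 < ε) : ∀ᶠ x in atTop, h x ≤ ε * x := by
  have h1 : ∀ᶠ x : ℝ in atTop, ‖Real.log x‖ ≤ ε / (A + 1) * ‖x ^ (1 / 2 : ℝ)‖ :=
    (isLittleO_log_rpow_atTop (show (0 : ℝ) < 1 / 2 by norm_num)).bound (div_pos hε (by linarith [S.hA]))
  filter_upwards [h1, S.hup, eventually_gt_atTop 1] with x h2 h3 h4
  have hl := log_pos' h4
  have hA := S.hA
  rw [Real.norm_of_nonneg hl.le, Real.norm_of_nonneg (by positivity), ← Real.sqrt_eq_rpow] at h2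
  refine h3.trans ?_
  have h5 : √x * √x = x := Real.mul_self_sqrt (by linarith)
  have h6 : 0 ≤ √x := Real.sqrt_nonneg x
  calc A * √x * Real.log x ≤ (A + 1) * √x * (ε / (A + 1) * √x) := by
        refine mul_le_mul ?_ h2 hl.le (by positivity)
        exact mul_le_mul_of_nonneg_right (by linarith) h6
    _ = ε * (√x * √x) := by
        field_simp
    _ = ε * x := by rw [h5]

theorem hole_ev {p : ℕ → Prop} (hp : ∀ᶠ k in atTop, p k) : ∀ᶠ x in atTop, ∀ k, x < be k → p k := by
  obtain ⟨K, hK⟩ := eventually_atTop.1 hp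
  filter_upwards [eventually_ge_atTop (be K)] with x hx k hk
  refine hK k ?_
  by_contra h1
  push Not at h1
  have h2 := S.hord k K h1
  have h3 := S.albe K
  linarith

/-- in a hole -/
theorem in_hole {δ : ℝ} (hδ : 0 < δ) (hδ1 : δ ≤ 1) : ∀ᶠ k in atTop, ∀ x, al k ≤ x → x < be k →
    x - al k ≤ (1 + δ) * h (al k) ∧ |h x - h (al k)| ≤ δ * h (al k) ∧
      Real.log x ≤ (1 + δ) * Real.log (al k) ∧ 0 < h (al k) ∧ 0 < Real.log (al k) := by
  filter_upwards [S.hlen δ hδ, S.hal.eventually (S.hsn 2 δ hδ), S.hal.eventually (S.h_small (ε := 1 / 2) (by norm_num)),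
    S.hal.eventually (S.htop.eventually (eventually_gt_atTop 0)),
    S.hal.eventually (Real.tendsto_log_atTop.eventually (eventually_ge_atTop (1 / δ))),
    S.hal.eventually (eventually_gt_atTop 1)] with k h1 h2 h3 h4 h5 h6 x hk1 hk2
  have h8 : x - al k ≤ (1 + δ) * h (al k) := by linarith [h1.2]
  have h9 : x - al k ≤ 2 * h (al k) := by nlinarith
  have hl := log_pos' h6
  refine ⟨h8, h2 x (by rw [abs_of_nonneg (by linarith)]; exact h9), ?_, h4, hl⟩
  have h10 : x ≤ 2 * al k := by linarith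
  have h11 := Real.log_le_log (by linarith) h10
  rw [Real.log_mul (by norm_num) (by linarith)] at h11
  have h12 : Real.log 2 ≤ 1 := by
    have := Real.log_two_lt_d9
    linarith
  rw [div_le_iff₀ hδ] at h5
  linarith

theorem df_bound {ε : ℝ} (hε : 0 < ε) : ∀ᶠ x in atTop, (M x - pc q x) * Real.log x ≤ (1 + ε) * h x := by
  set δ := min ε 1 / 8 with hδ
  have hδ0 : 0 < δ := by positivity
  have hδ1 : δ ≤ 1 / 8 := by
    have := min_le_right ε 1
    linarith
  have hδε : 8 * δ ≤ ε := by
    have := min_le_left ε 1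
    linarith
  filter_upwards [S.hole_ev (S.in_hole hδ0 (by linarith)), S.hole_ev (S.ins δ hδ0), S.out 1 one_pos,
    S.htop.eventually (eventually_gt_atTop 0), eventually_gt_atTop 1] with x h1 h2 h3 hh h4
  have hl := log_pos' h4
  by_cases hout : ∀ k, al k ≤ x → be k ≤ x
  · have := h3 hout
    nlinarith
  · push Not at hout
    obtain ⟨k, hk1, hk2⟩ := hout
    obtain ⟨h5, h6, h7, h8, h9⟩ := h1 k hk2 x hk1 hk2
    have h10 := (abs_le.1 h6).1
    have h11 := h2 k hk2 x hk1 hk2
    set a := al k with ha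
    rcases le_or_gt (M x - pc q x) 0 with h12 | h12
    · have h13 : (M x - pc q x) * Real.log x ≤ 0 := mul_nonpos_of_nonpos_of_nonneg h12 hl.le
      have h14 : 0 ≤ (1 + ε) * h x := by positivity
      linarith
    · calc (M x - pc q x) * Real.log x ≤ (M x - pc q x) * ((1 + δ) * Real.log a) :=
            mul_le_mul_of_nonneg_left h7 h12.le
        _ = (1 + δ) * ((M x - pc q x) * Real.log a) := by ring
        _ ≤ (1 + δ) * ((x - a) + δ * h a) := mul_le_mul_of_nonneg_left h11 (by positivity)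
        _ ≤ (1 + δ) * ((1 + δ) * h a + δ * h a) := mul_le_mul_of_nonneg_left (by linarith) (by positivity)
        _ ≤ (1 + ε) * ((1 - δ) * h a) := by
            have h11 : (1 + δ) * (1 + 2 * δ) ≤ (1 + ε) * (1 - δ) := by
              have h12 : (1 + 8 * δ) * (1 - δ) ≤ (1 + ε) * (1 - δ) :=
                mul_le_mul_of_nonneg_right (by linarith) (by linarith)
              nlinarith
            calc (1 + δ) * ((1 + δ) * h a + δ * h a) = (1 + δ) * (1 + 2 * δ) * h a := by ring
              _ ≤ (1 + ε) * (1 - δ) * h a := mul_le_mul_of_nonneg_right h11 h8.le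
              _ = _ := by ring
        _ ≤ (1 + ε) * h x := mul_le_mul_of_nonneg_left (by linarith) (by linarith)

/-- the number of generalised primes in `(x, x + H]` -/
theorem upper {lam ε : ℝ} (hlam : 0 < lam) (hε : 0 < ε) : ∀ᶠ x in atTop, ∀ H, lam * h x ≤ H → H ≤ x →
    ((pc q (x + H) : ℝ) - pc q x) * Real.log x ≤ (1 + 1 / lam + ε) * H := by
  set δ := min 1 (ε / (5 + 4 / lam)) with hδ
  have hc : 0 < 5 + 4 / lam := by positivity
  have hδ0 : 0 < δ := by positivity
  have hδ1 : δ ≤ 1 := min_le_left _ _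
  have hδε : δ * (5 + 4 / lam) ≤ ε := by
    have : δ ≤ ε / (5 + 4 / lam) := min_le_right _ _
    rwa [le_div_iff₀ hc] at this
  obtain ⟨X, hX⟩ := (S.low δ hδ0).exists_forall_of_atTop
  filter_upwards [eventually_ge_atTop X, S.df_bound hδ0, S.htop.eventually (eventually_gt_atTop 0),
    S.hsn.far S.htop hδ0, S.hle δ hδ0, eventually_gt_atTop 1] with x h1 h2 h3 h4 hml h6 H h7 h8
  have hl := log_pos' h6
  have hH : 0 < H := by nlinarith
  have h9 : h x ≤ H / lam := by
    rw [le_div_iff₀ hlam]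
    linarith
  have h10 := hX (x + H) (by linarith)
  have h11 := h4 (x + H) (by linarith)
  have e3 : x + H - x = H := by ring
  rw [e3] at h11
  have hh0 : 0 ≤ h x + δ * H := by positivity
  have h12 : -(M (x + H) - pc q (x + H)) * Real.log x ≤ δ * ((1 + δ) * (h x + δ * H)) := by
    rcases le_or_gt 0 (M (x + H) - pc q (x + H)) with h13 | h13
    · have h14 : -(M (x + H) - pc q (x + H)) * Real.log x ≤ 0 :=
        mul_nonpos_of_nonpos_of_nonneg (by linarith) hl.le
      have h15 : 0 ≤ δ * ((1 + δ) * (h x + δ * H)) := by positivity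
      linarith
    · calc -(M (x + H) - pc q (x + H)) * Real.log x ≤ -(M (x + H) - pc q (x + H)) * Real.log (x + H) :=
            mul_le_mul_of_nonneg_left (Real.log_le_log (by linarith) (by linarith)) (by linarith)
        _ ≤ δ * h (x + H) := by linarith
        _ ≤ _ := mul_le_mul_of_nonneg_left h11 hδ0.le
  have h14 := hml H hH.le h8
  have e2 : ((pc q (x + H) : ℝ) - pc q x) * Real.log x =
      (M (x + H) - M x) * Real.log x + (M x - pc q x) * Real.log x +
        -(M (x + H) - pc q (x + H)) * Real.log x := by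
    ring
  rw [e2]
  have h16 : δ * ((1 + δ) * (h x + δ * H)) ≤ 2 * δ * h x + 2 * δ * H := by
    have h17 : (1 + δ) * (h x + δ * H) ≤ 2 * (h x + 1 * H) :=
      mul_le_mul (by linarith) (by nlinarith) hh0 (by norm_num)
    have := mul_le_mul_of_nonneg_left h17 hδ0.le
    linarith
  have h17 : (1 + 3 * δ) * h x ≤ (1 + 3 * δ) * (H / lam) := mul_le_mul_of_nonneg_left h9 (by linarith)
  have h19 : δ * (5 + 4 / lam) * H ≤ ε * H := mul_le_mul_of_nonneg_right hδε hH.le
  have e4 : δ * (5 + 4 / lam) * H = 5 * (δ * H) + 4 * (δ * (H / lam)) := by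
    field_simp
  have e5 : (1 + 1 / lam + ε) * H = H + H / lam + ε * H := by
    field_simp
  have h20 : 0 ≤ δ * H := by positivity
  have h21 : 0 ≤ δ * (H / lam) := by positivity
  rw [e5]
  rw [e4] at h19
  linarith

theorem lower {lam ε : ℝ} (hlam : 0 < lam) (hε : 0 < ε) : ∀ᶠ x in atTop, ∀ H, lam * h x ≤ H → H ≤ x →
    (1 - 1 / lam - ε) * H ≤ ((pc q (x + H) : ℝ) - pc q x) * Real.log x := by
  set δ := min 1 (ε / (5 + 4 / lam)) with hδ
  have hc : 0 < 5 + 4 / lam := by positivity
  have hδ0 : 0 < δ := by positivity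
  have hδ1 : δ ≤ 1 := min_le_left _ _
  have hδε : δ * (5 + 4 / lam) ≤ ε := by
    have : δ ≤ ε / (5 + 4 / lam) := min_le_right _ _
    rwa [le_div_iff₀ hc] at this
  obtain ⟨X, hX⟩ := (S.df_bound hδ0).exists_forall_of_atTop
  filter_upwards [eventually_ge_atTop X, S.low δ hδ0, S.htop.eventually (eventually_gt_atTop 0),
    S.hsn.far S.htop hδ0, S.hge δ hδ0, eventually_gt_atTop 1] with x h1 h2 h3 h4 h5 h6 H h7 h8
  have hl := log_pos' h6
  have hH : 0 < H := by nlinarith
  have h9 : h x ≤ H / lam := by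
    rw [le_div_iff₀ hlam]
    linarith
  have h10 := hX (x + H) (by linarith)
  have h11 := h4 (x + H) (by linarith)
  have hh0 : 0 ≤ h x + δ * (x + H - x) := by
    have : 0 ≤ δ * (x + H - x) := mul_nonneg hδ0.le (by linarith)
    linarith
  have h12 : (M (x + H) - pc q (x + H)) * Real.log x ≤ (1 + δ) * ((1 + δ) * (h x + δ * (x + H - x))) := by
    rcases le_or_gt (M (x + H) - pc q (x + H)) 0 with h13 | h13
    · have h14 : (M (x + H) - pc q (x + H)) * Real.log x ≤ 0 := mul_nonpos_of_nonpos_of_nonneg h13 hl.le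
      have h15 : 0 ≤ (1 + δ) * ((1 + δ) * (h x + δ * (x + H - x))) := by positivity
      linarith
    · calc (M (x + H) - pc q (x + H)) * Real.log x ≤ (M (x + H) - pc q (x + H)) * Real.log (x + H) :=
            mul_le_mul_of_nonneg_left (Real.log_le_log (by linarith) (by linarith)) h13.le
        _ ≤ (1 + δ) * h (x + H) := h10
        _ ≤ _ := mul_le_mul_of_nonneg_left h11 (by linarith)
  have h14 := h5 H hH.le h8
  have e2 : ((pc q (x + H) : ℝ) - pc q x) * Real.log x =
      (M (x + H) - M x) * Real.log x + (M x - pc q x) * Real.log x -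
        (M (x + H) - pc q (x + H)) * Real.log x := by
    ring
  rw [e2]
  have e3 : x + H - x = H := by ring
  rw [e3] at h12
  have h16 : (1 + δ) * ((1 + δ) * (h x + δ * H)) ≤ (1 + 3 * δ) * (H / lam + δ * H) := by
    have h17 : (1 + δ) * (1 + δ) ≤ 1 + 3 * δ := by nlinarith
    have h18 : 0 ≤ h x + δ * H := by positivity
    calc (1 + δ) * ((1 + δ) * (h x + δ * H)) = (1 + δ) * (1 + δ) * (h x + δ * H) := by ring
      _ ≤ (1 + 3 * δ) * (h x + δ * H) := mul_le_mul_of_nonneg_right h17 h18
      _ ≤ (1 + 3 * δ) * (H / lam + δ * H) := mul_le_mul_of_nonneg_left (by linarith) (by linarith)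
  have h17 : δ * h x ≤ δ * (H / lam) := mul_le_mul_of_nonneg_left h9 hδ0.le
  have h18 : (1 - 1 / lam - ε) * H ≤ (1 - δ) * H - δ * (H / lam) - (1 + 3 * δ) * (H / lam + δ * H) := by
    have h19 : δ * (5 + 4 / lam) * H ≤ ε * H := mul_le_mul_of_nonneg_right hδε hH.le
    have h20 : δ * δ * H ≤ δ * H := by
      have : δ * δ ≤ δ * 1 := mul_le_mul_of_nonneg_left hδ1 hδ0.le
      have := mul_le_mul_of_nonneg_right this hH.le
      linarith
    have e4 : δ * (5 + 4 / lam) * H = 5 * (δ * H) + 4 * (δ * (H / lam)) := by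
      field_simp
    have e5 : (1 - 1 / lam - ε) * H = H - H / lam - ε * H := by
      field_simp
    have e6 : (1 + 3 * δ) * (H / lam + δ * H) = H / lam + 3 * (δ * (H / lam)) + δ * H + 3 * (δ * δ * H) := by
      ring
    rw [e5, e6]
    rw [e4] at h19
    linarith
  linarith

/-- the holes are far apart -/
theorem apart : ∀ᶠ k in atTop, ∀ j, j < k → 2 * be j < al k := by
  have h1 : ∀ᶠ k : ℕ in atTop, 2 * be (k - 1) < al (k - 1 + 1) := (tendsto_sub_atTop_nat 1).eventually S.hsep
  filter_upwards [h1, eventually_ge_atTop 1] with k hk hk1 j hj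
  rw [Nat.sub_add_cancel hk1] at hk
  rcases Nat.lt_or_ge j (k - 1) with h2 | h2
  · have h3 := S.hord j (k - 1) h2
    have h4 := S.albe (k - 1)
    linarith
  · have h3 : j = k - 1 := by omega
    rw [h3]
    exact hk

/-- a point near a hole that does not lie in this hole lies in no hole -/
theorem near : ∀ᶠ k in atTop, ∀ y, al k ≤ 2 * y → y ≤ 2 * be k → (y < al k ∨ be k ≤ y) →
    ∀ j, al j ≤ y → be j ≤ y := by
  filter_upwards [S.apart, S.hsep] with k h1 h2 y h3 h4 h5 j hj
  rcases lt_trichotomy j k with h6 | h6 | h6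
  · have h7 := h1 j h6
    linarith
  · rw [h6] at hj ⊢
    rcases h5 with h7 | h7
    · linarith
    · exact h7
  · have h7 : al (k + 1) ≤ al j := by
      rcases Nat.lt_or_ge (k + 1) j with h8 | h8
      · have h9 := S.hord (k + 1) j h8
        have h10 := S.albe (k + 1)
        linarith
      · have h9 : j = k + 1 := by omega
        rw [h9]
    linarith

/-- the ends of the holes -/
theorem ee_tendsto : Tendsto (fun k => al k + h (al k)) atTop atTop := by
  refine tendsto_atTop_mono' _ ?_ S.hal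
  filter_upwards [S.hal.eventually (S.htop.eventually (eventually_ge_atTop 0))] with k hk
  linarith

theorem ends {δ : ℝ} (hδ : 0 < δ) (hδ1 : δ ≤ 1 / 2) : ∀ᶠ k in atTop,
    0 < h (al k) ∧ 0 < Real.log (al k) ∧
    (1 - 2 * δ) * h (al k + h (al k)) ≤ h (al k) ∧ h (al k) ≤ 2 * h (al k + h (al k)) ∧
      Real.log (al k + h (al k)) ≤ (1 + δ) * Real.log (al k) ∧
      pc q (al k + h (al k)) = pc q (al k) ∧ al k + h (al k) < be k := by
  filter_upwards [S.in_hole hδ (by linarith), S.hlen 1 one_pos, S.emp,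
    S.hal.eventually (S.htop.eventually (eventually_gt_atTop 0)),
    S.ee_tendsto.eventually (S.htop.eventually (eventually_gt_atTop 0))] with k h1 h2 h3 h4 h4'
  obtain ⟨h5, h6, h7, h8, h9⟩ := h1 (al k + h (al k)) (by linarith) h2.1
  have h10 := abs_le.1 h6
  refine ⟨h8, h9, ?_, ?_, h7, h3 _ (by linarith) le_rfl, h2.1⟩
  · have h12 : (1 - 2 * δ) * h (al k + h (al k)) ≤ (1 - 2 * δ) * ((1 + δ) * h (al k)) :=
      mul_le_mul_of_nonneg_left (by linarith [h10.2]) (by linarith)
    nlinarith
  · have h11 : (1 - δ) * h (al k) ≤ h (al k + h (al k)) := by linarith [h10.1]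
    nlinarith

theorem sharp_upper {lam ε : ℝ} (hlam : 0 < lam) (hε : 0 < ε) : ∃ᶠ x in atTop,
    lam * h x ≤ x ∧ (1 + 1 / lam - ε) * (lam * h x) ≤
      ((pc q (x + lam * h x) : ℝ) - pc q x) * Real.log x := by
  refine S.ee_tendsto.frequently (Eventually.frequently ?_)
  set δ := min (1 / 2) (ε * lam / (2 * lam + 9)) with hδ
  have hδ0 : 0 < δ := by positivity
  have hδ1 : δ ≤ 1 / 2 := min_le_left _ _
  have hδε : δ * (2 * lam + 9) ≤ ε * lam := by
    have : δ ≤ ε * lam / (2 * lam + 9) := min_le_right _ _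
    rwa [le_div_iff₀ (by positivity)] at this
  obtain ⟨X, hX⟩ := (S.out δ hδ0).exists_forall_of_atTop
  have hbt := S.ee_tendsto
  filter_upwards [S.ends hδ0 hδ1, hbt.eventually (eventually_ge_atTop X),
    hbt.eventually (S.h_small (ε := 1 / lam) (by positivity)),
    hbt.eventually (S.htop.eventually (eventually_gt_atTop 0)),
    hbt.eventually (S.hge δ hδ0), S.hal.eventually (S.hge δ hδ0),
    hbt.eventually (eventually_gt_atTop 1), S.hlen (lam / 2) (by positivity), S.near,
    S.hal.eventually (S.h_small (ε := 1 / 2) (by norm_num)), S.hal.eventually (eventually_gt_atTop 1),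
    S.hal.eventually (S.low δ hδ0), hbt.eventually (S.hsn.far S.htop hδ0)]
    with k h1 h2 h3 hh h5 h6 h7 h8 hnear h8' ha1 hlow hfar
  obtain ⟨g1, g2, g3, g4, g5, g6, g7⟩ := h1
  have hxe : al k + h (al k) - al k = h (al k) := by ring
  have h9' := h6 (h (al k)) g1.le (by linarith)
  set x := al k + h (al k) with hx
  have hl := log_pos' h7
  have hHx : lam * h x ≤ x := by
    have := mul_le_mul_of_nonneg_left h3 hlam.le
    calc lam * h x ≤ lam * (1 / lam * x) := this
      _ = x := by field_simp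
  refine ⟨hHx, ?_⟩
  have hy : be k ≤ x + lam * h x := by
    have h10 := h8.2
    have h11 : lam / 2 * h (al k) ≤ lam * h x := by
      have := mul_le_mul_of_nonneg_left g4 (show 0 ≤ lam / 2 by positivity)
      linarith
    linarith
  have hlh : 0 < lam * h x := by positivity
  have h13 := hX (x + lam * h x) (by linarith) (hnear (x + lam * h x) (by linarith) (by linarith) (Or.inr hy))
  have h14 := h5 (lam * h x) hlh.le hHx
  have h15 := hfar (x + lam * h x) (by linarith)
  have e1 : x + lam * h x - x = lam * h x := by ring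
  rw [e1] at h15
  -- the deficiency at `y`
  have h16 : (M (x + lam * h x) - pc q (x + lam * h x)) * Real.log x ≤ δ * ((1 + δ) * (h x + δ * (lam * h x))) := by
    rcases le_or_gt (M (x + lam * h x) - pc q (x + lam * h x)) 0 with h17 | h17
    · have h18 : (M (x + lam * h x) - pc q (x + lam * h x)) * Real.log x ≤ 0 :=
        mul_nonpos_of_nonpos_of_nonneg h17 hl.le
      have h19 : 0 ≤ δ * ((1 + δ) * (h x + δ * (lam * h x))) := by positivity
      linarith
    · calc (M (x + lam * h x) - pc q (x + lam * h x)) * Real.log x ≤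
          (M (x + lam * h x) - pc q (x + lam * h x)) * Real.log (x + lam * h x) :=
            mul_le_mul_of_nonneg_left (Real.log_le_log (by linarith) (by linarith)) h17.le
        _ ≤ δ * h (x + lam * h x) := h13
        _ ≤ _ := mul_le_mul_of_nonneg_left h15 hδ0.le
  have h17 : δ * ((1 + δ) * (h x + δ * (lam * h x))) ≤ δ * ((2 + lam) * h x) := by
    refine mul_le_mul_of_nonneg_left ?_ hδ0.le
    have e : (1 + δ) * (h x + δ * (lam * h x)) = (1 + δ) * h x + (1 + δ) * δ * (lam * h x) := by ring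
    have h18 : (1 + δ) * h x ≤ 2 * h x := mul_le_mul_of_nonneg_right (by linarith) hh.le
    have h19 : (1 + δ) * δ * (lam * h x) ≤ 1 * (lam * h x) := mul_le_mul_of_nonneg_right (by nlinarith) hlh.le
    rw [e]
    linarith
  -- the deficiency at the left end
  have h18 : -(4 * δ * h x) ≤ (M (al k) - pc q (al k)) * Real.log x := by
    rcases le_or_gt 0 (M (al k) - pc q (al k)) with h19 | h19
    · have h20 : 0 ≤ (M (al k) - pc q (al k)) * Real.log x := mul_nonneg h19 hl.le
      have h21 : 0 ≤ 4 * δ * h x := by positivity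
      linarith
    · have h20 : (M (al k) - pc q (al k)) * ((1 + δ) * Real.log (al k)) ≤
          (M (al k) - pc q (al k)) * Real.log x := mul_le_mul_of_nonpos_left g5 h19.le
      have h21 : (1 + δ) * -(δ * h (al k)) ≤ (1 + δ) * ((M (al k) - pc q (al k)) * Real.log (al k)) :=
        mul_le_mul_of_nonneg_left hlow (by linarith)
      have h22 : (1 + δ) * (δ * h (al k)) ≤ 2 * (δ * (2 * h x)) := by
        refine mul_le_mul (by linarith) (mul_le_mul_of_nonneg_left g4 hδ0.le) (by positivity) (by norm_num)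
      linarith
  have h19 : (1 - δ) * h (al k) ≤ (M x - M (al k)) * Real.log x := by
    have h20 : 0 ≤ M x - M (al k) := by
      have := S.hmo (al k) x (by linarith) (by linarith)
      linarith
    refine h9'.trans (mul_le_mul_of_nonneg_left (Real.log_le_log (by linarith) (by linarith)) h20)
  rw [g6]
  have e3 : ((pc q (x + lam * h x) : ℝ) - pc q (al k)) * Real.log x = (M (x + lam * h x) - M x) * Real.log x +
      (M x - M (al k)) * Real.log x - (M (x + lam * h x) - pc q (x + lam * h x)) * Real.log x +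
        (M (al k) - pc q (al k)) * Real.log x := by ring
  rw [e3]
  have e4 : (1 + 1 / lam - ε) * (lam * h x) = lam * h x + h x - ε * lam * h x := by
    field_simp
  rw [e4]
  have h20 : δ * (2 * lam + 9) * h x ≤ ε * lam * h x := mul_le_mul_of_nonneg_right hδε hh.le
  have h21 : (1 - δ) * ((1 - 2 * δ) * h x) ≤ (1 - δ) * h (al k) :=
    mul_le_mul_of_nonneg_left g3 (by linarith)
  have h22 : 0 ≤ δ * δ * h x := by positivity
  nlinarith

theorem sharp_lower {lam ε : ℝ} (hlam : 0 < lam) (hε : 0 < ε) : ∃ᶠ x in atTop, ∃ H : ℝ,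
    lam * h x ≤ H ∧ H ≤ x ∧ ((pc q (x + H) : ℝ) - pc q x) * Real.log x ≤
      (max 0 (1 - 1 / lam) + ε) * H := by
  have hbt := S.ee_tendsto
  set δ := min (1 / 2) (min (ε / 2) (ε * lam / 14)) with hδ
  have hδ0 : 0 < δ := by positivity
  have hδ1 : δ ≤ 1 / 2 := min_le_left _ _
  have hδε' : δ ≤ ε / 2 := (min_le_right _ _).trans (min_le_left _ _)
  have hδε : 14 * δ ≤ ε * lam := by
    have : δ ≤ ε * lam / 14 := (min_le_right _ _).trans (min_le_right _ _)
    linarith
  have hbt2 : Tendsto (fun k => (al k + h (al k)) - (1 + δ) * lam * h (al k + h (al k))) atTop atTop := by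
    have h1 : Tendsto (fun k => (al k + h (al k)) / 2) atTop atTop := hbt.atTop_div_const (by norm_num)
    refine tendsto_atTop_mono' _ ?_ h1
    filter_upwards [hbt.eventually (S.h_small (ε := 1 / (2 * ((1 + δ) * lam))) (by positivity))] with k hk
    have := mul_le_mul_of_nonneg_left hk (show 0 ≤ (1 + δ) * lam by positivity)
    have e : (1 + δ) * lam * (1 / (2 * ((1 + δ) * lam)) * (al k + h (al k))) = (al k + h (al k)) / 2 := by
      field_simp
    linarith
  refine hbt2.frequently (Eventually.frequently ?_)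
  filter_upwards [S.ends hδ0 hδ1, hbt.eventually (S.hsn ((1 + δ) * lam) δ hδ0),
    hbt2.eventually (S.out δ hδ0),
    hbt.eventually (S.h_small (ε := 1 / (2 * ((1 + δ) * lam))) (by positivity)),
    hbt2.eventually (eventually_gt_atTop 1), hbt.eventually (S.htop.eventually (eventually_gt_atTop 0)),
    hbt.eventually (eventually_gt_atTop 1), S.near, S.emp, S.hal.eventually (S.low δ hδ0),
    hbt2.eventually (S.hle δ hδ0)]
    with k h1 h2 hout h4 h5 h6 h7 hnear hemp hlow hml
  obtain ⟨g1, g2, g3, g4, g5, g6, g7⟩ := h1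
  set e := al k + h (al k) with he
  set H := (1 + δ) * lam * h e with hH
  set x := e - H with hx
  have hH0 : 0 < H := by positivity
  have h10 := h2 x (by rw [hx, sub_sub_cancel_left, abs_neg, abs_of_pos hH0])
  have h11 := (abs_le.1 h10).2
  have hHe : H ≤ e / 2 := by
    have := mul_le_mul_of_nonneg_left h4 (show 0 ≤ (1 + δ) * lam by positivity)
    have e' : (1 + δ) * lam * (1 / (2 * ((1 + δ) * lam)) * e) = e / 2 := by
      field_simp
    linarith
  have hxe : x + H = e := by rw [hx]; ring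
  have hl := log_pos' h5
  refine ⟨H, ?_, by linarith, ?_⟩
  · have : lam * h x ≤ lam * ((1 + δ) * h e) := mul_le_mul_of_nonneg_left (by linarith) hlam.le
    calc _ ≤ _ := this
      _ = H := by rw [hH]; ring
  rw [hxe, g6]
  rcases le_or_gt (al k) x with h12 | h12
  · have h13 : pc q x = pc q (al k) := hemp x h12 (by linarith)
    rw [h13, sub_self, zero_mul]
    have : 0 ≤ max 0 (1 - 1 / lam) := le_max_left _ _
    positivity
  · have h13 := hout (hnear x (by linarith) (by linarith) (Or.inl h12))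
    have h14 := hml (al k - x) (by linarith) (by linarith)
    rw [add_sub_cancel] at h14
    have h14' : δ * (al k - x) ≤ δ * H := mul_le_mul_of_nonneg_left (by linarith) hδ0.le
    have h14'' : δ * H ≤ ε / 2 * H := mul_le_mul_of_nonneg_right hδε' hH0.le
    have h15 : -(M (al k) - pc q (al k)) * Real.log x ≤ δ * h (al k) := by
      rcases le_or_gt 0 (M (al k) - pc q (al k)) with h16 | h16
      · have h17 : -(M (al k) - pc q (al k)) * Real.log x ≤ 0 :=
          mul_nonpos_of_nonpos_of_nonneg (by linarith) hl.le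
        have h18 : 0 ≤ δ * h (al k) := by positivity
        linarith
      · calc -(M (al k) - pc q (al k)) * Real.log x ≤ -(M (al k) - pc q (al k)) * Real.log (al k) :=
              mul_le_mul_of_nonneg_left (Real.log_le_log (by linarith) h12.le) (by linarith)
          _ ≤ δ * h (al k) := by linarith
    have h16 : (1 - 1 / lam) * H ≤ max 0 (1 - 1 / lam) * H :=
      mul_le_mul_of_nonneg_right (le_max_right _ _) hH0.le
    have h17 : al k - x = H - h (al k) := by
      rw [hx, he]
      ring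
    have h18 : δ * h x ≤ δ * ((1 + δ) * h e) := mul_le_mul_of_nonneg_left (by linarith) hδ0.le
    have h18' : δ * h (al k) ≤ δ * (2 * h e) := mul_le_mul_of_nonneg_left g4 hδ0.le
    have h19 : 14 * δ * h e ≤ ε * lam * h e := mul_le_mul_of_nonneg_right hδε h6.le
    have e3 : 1 / lam * H = (1 + δ) * h e := by
      rw [hH]
      field_simp
    have h20 : (max 0 (1 - 1 / lam) + ε) * H = max 0 (1 - 1 / lam) * H + ε * H := by ring
    rw [h20]
    have h21 : (1 - 1 / lam) * H = H - (1 + δ) * h e := by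
      rw [sub_mul, one_mul, e3]
    have h22 : ε * lam * h e ≤ ε * H := by
      have : ε * H = ε * lam * h e + δ * (ε * lam * h e) := by rw [hH]; ring
      have : 0 ≤ δ * (ε * lam * h e) := by positivity
      linarith
    have h23 : 0 ≤ δ * h e := by positivity
    have h24 : δ * δ * h e ≤ δ * h e := by
      have : δ * δ ≤ δ * 1 := mul_le_mul_of_nonneg_left (by linarith) hδ0.le
      have := mul_le_mul_of_nonneg_right this h6.le
      linarith
    have e4 : ((pc q (al k) : ℝ) - pc q x) * Real.log x = (M (al k) - M x) * Real.log x +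
        (M x - pc q x) * Real.log x + -(M (al k) - pc q (al k)) * Real.log x := by ring
    rw [e4]
    nlinarith

theorem primesIn_eq' {x H : ℝ} (hH : 0 ≤ H) :
    (primesIn q x H : ℝ) = (pc q (x + H) : ℝ) - pc q x :=
  primesIn_eq S.hq S.hg hH

theorem dens_upper {lam ε : ℝ} (hlam : 0 < lam) (hε : 0 < ε) : ∀ᶠ x in atTop, ∀ H ∈ Icc (lam * h x) x,
    dens q x H ≤ 1 + 1 / lam + ε := by
  filter_upwards [S.upper hlam hε, S.htop.eventually (eventually_gt_atTop 0)] with x h1 h2 H hH
  have hH0 : 0 < H := lt_of_lt_of_le (by positivity) hH.1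
  unfold dens
  rw [div_le_iff₀ hH0, S.primesIn_eq' hH0.le]
  exact h1 H hH.1 hH.2

theorem dens_lower {lam ε : ℝ} (hlam : 0 < lam) (hε : 0 < ε) : ∀ᶠ x in atTop, ∀ H ∈ Icc (lam * h x) x,
    max 0 (1 - 1 / lam) - ε ≤ dens q x H := by
  filter_upwards [S.lower hlam hε, S.htop.eventually (eventually_gt_atTop 0), eventually_gt_atTop 1]
    with x h1 h2 h3 H hH
  have hH0 : 0 < H := lt_of_lt_of_le (by positivity) hH.1
  have hl := log_pos' h3
  have h4 : 0 ≤ dens q x H := by
    unfold dens
    positivity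
  have h5 : 1 - 1 / lam - ε ≤ dens q x H := by
    unfold dens
    rw [le_div_iff₀ hH0, S.primesIn_eq' hH0.le]
    exact h1 H hH.1 hH.2
  rcases le_total 0 (1 - 1 / lam) with h6 | h6
  · rw [max_eq_right h6]
    exact h5
  · rw [max_eq_left h6]
    linarith

theorem limsup_dens {lam : ℝ} (hlam : 0 < lam) :
    limsup (fun x : ℝ => ⨆ H ∈ Icc (lam * h x) x, ((dens q x H : ℝ) : EReal)) atTop =
      ((1 + 1 / lam : ℝ) : EReal) := by
  refine limsup_coe (fun ε hε => ?_) fun ε hε => ?_
  · filter_upwards [S.dens_upper hlam hε] with x hx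
    exact iSup₂_le fun H hH => EReal.coe_le_coe_iff.2 (hx H hH)
  · refine ((S.sharp_upper hlam hε).and_eventually (S.htop.eventually (eventually_gt_atTop 0))).mono
      fun x hx => ?_
    obtain ⟨⟨h1, h2⟩, h3⟩ := hx
    have hH0 : 0 < lam * h x := by positivity
    refine le_trans (EReal.coe_le_coe_iff.2 ?_) (le_iSup₂ (f := fun H (_ : H ∈ Icc (lam * h x) x) =>
      ((dens q x H : ℝ) : EReal)) (lam * h x) ⟨le_rfl, h1⟩)
    unfold dens
    rw [le_div_iff₀ hH0, S.primesIn_eq' hH0.le]
    exact h2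

theorem liminf_dens {lam : ℝ} (hlam : 0 < lam) :
    liminf (fun x : ℝ => ⨅ H ∈ Icc (lam * h x) x, ((dens q x H : ℝ) : EReal)) atTop =
      ((max 0 (1 - 1 / lam) : ℝ) : EReal) := by
  refine liminf_coe (fun ε hε => ?_) fun ε hε => ?_
  · filter_upwards [S.dens_lower hlam hε] with x hx
    exact le_iInf₂ fun H hH => EReal.coe_le_coe_iff.2 (hx H hH)
  · refine ((S.sharp_lower hlam hε).and_eventually (S.htop.eventually (eventually_gt_atTop 0))).mono
      fun x hx => ?_
    obtain ⟨⟨H, h1, h2, h3⟩, h4⟩ := hx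
    have hH0 : 0 < H := lt_of_lt_of_le (by positivity) h1
    refine le_trans (iInf₂_le (f := fun H (_ : H ∈ Icc (lam * h x) x) =>
      ((dens q x H : ℝ) : EReal)) H ⟨h1, h2⟩) (EReal.coe_le_coe_iff.2 ?_)
    unfold dens
    rw [div_le_iff₀ hH0, S.primesIn_eq' hH0.le]
    exact h3

/-- the asymptotic formula above the threshold -/
theorem above {f : ℝ → ℝ} (hf : ∀ lam : ℝ, 0 < lam → ∀ᶠ x in atTop, lam * h x ≤ f x) {δ : ℝ} (hδ : 0 < δ) :
    ∀ᶠ x in atTop, ∀ H ∈ Icc (f x) x, |dens q x H - 1| ≤ δ := by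
  have hl : 0 < 2 / δ := by positivity
  filter_upwards [S.dens_upper hl (half_pos hδ), S.dens_lower hl (half_pos hδ), hf _ hl] with x h1 h2 h3 H hH
  have h4 := h1 H ⟨h3.trans hH.1, hH.2⟩
  have h5 := h2 H ⟨h3.trans hH.1, hH.2⟩
  have e : 1 / (2 / δ) = δ / 2 := by field_simp
  rw [e] at h4 h5
  have h6 := le_max_right 0 (1 - δ / 2)
  rw [abs_le]
  constructor <;> linarith

/-- no generalised primes below the threshold -/
theorem below {f : ℝ → ℝ} (hf : ∀ᶠ x in atTop, 0 ≤ f x ∧ f x ≤ h x) :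
    ∃ᶠ x in atTop, primesIn q x (f x) = 0 := by
  refine S.hal.frequently (Eventually.frequently ?_)
  filter_upwards [S.hal.eventually hf, S.emp] with k hk h1
  have h3 := S.primesIn_eq' (x := al k) hk.1
  rw [h1 (al k + f (al k)) (by linarith [hk.1]) (by linarith [hk.2]), sub_self] at h3
  exact_mod_cast h3

end HS

end Pool.Agent.H34.BK.G
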